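import Pool.Agent.W780.SN.Tools

/-!
Radial cutoff function.
-/

namespace Pool.Agent.W780.SN

open MeasureTheory Set Filter Topology Metric
open scoped ENNReal InnerProductSpace ContDiff

lemma deriv_st_bdd : ∃ M : ℝ, 0 < M ∧ ∀ t, |deriv Real.smoothTransition t| ≤ M := by
  have hc : Continuous (deriv Real.smoothTransition) :=
    (Real.smoothTransition.contDiff (n := 1)).continuous_deriv le_rfl
  obtain ⟨M, hM⟩ := (isCompact_Icc (a := (0 : ℝ)) (b := 1)).exists_bound_of_continuousOn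
    hc.continuousOn
  refine ⟨max M 1, by positivity, fun t => ?_⟩
  by_cases h0 : t < 0
  · have : deriv Real.smoothTransition t = 0 := by
      have : Real.smoothTransition =ᶠ[𝓝 t] fun _ => (0 : ℝ) := by
        filter_upwards [Iio_mem_nhds h0] with s hs
        exact Real.smoothTransition.zero_of_nonpos (le_of_lt hs)
      rw [this.deriv_eq]; simp
    rw [this]; simp
  · by_cases h1 : 1 < t
    · have : deriv Real.smoothTransition t = 0 := by
        have : Real.smoothTransition =ᶠ[𝓝 t] fun _ => (1 : ℝ) := by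
          filter_upwards [Ioi_mem_nhds h1] with s hs
          exact Real.smoothTransition.one_of_one_le (le_of_lt hs)
        rw [this.deriv_eq]; simp
      rw [this]; simp
    · have := hM t ⟨not_lt.1 h0, not_lt.1 h1⟩
      rw [Real.norm_eq_abs] at this
      exact this.trans (le_max_left _ _)

/-- radial cutoff: `0` for `‖y - y0‖ ≤ D/4` and `1` for `‖y - y0‖ ≥ D/3`. -/
noncomputable def cut {n : ℕ} (y0 : EuclideanSpace ℝ (Fin n)) (D : ℝ)
    (y : EuclideanSpace ℝ (Fin n)) : ℝ :=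
  Real.smoothTransition ((‖y - y0‖ ^ 2 / D ^ 2 - 1 / 16) * (144 / 7))

variable {n : ℕ}

lemma cut_smooth (y0 : EuclideanSpace ℝ (Fin n)) (D : ℝ) : ContDiff ℝ ∞ (cut y0 D) := by
  unfold cut
  refine Real.smoothTransition.contDiff.comp ?_
  refine ContDiff.mul ?_ contDiff_const
  refine ContDiff.sub ?_ contDiff_const
  refine ContDiff.div_const ?_ _
  exact (contDiff_norm_sq ℝ).comp (contDiff_id.sub contDiff_const)

lemma cut_nonneg (y0 : EuclideanSpace ℝ (Fin n)) (D : ℝ) (y) : 0 ≤ cut y0 D y :=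
  Real.smoothTransition.nonneg _

lemma cut_le_one (y0 : EuclideanSpace ℝ (Fin n)) (D : ℝ) (y) : cut y0 D y ≤ 1 :=
  Real.smoothTransition.le_one _

lemma cut_zero {y0 : EuclideanSpace ℝ (Fin n)} {D : ℝ} (hD : 0 < D) {y}
    (h : ‖y - y0‖ ≤ D / 4) : cut y0 D y = 0 := by
  refine Real.smoothTransition.zero_of_nonpos ?_
  have : ‖y - y0‖ ^ 2 / D ^ 2 ≤ 1 / 16 := by
    rw [div_le_iff₀ (by positivity)]
    calc ‖y - y0‖ ^ 2 ≤ (D / 4) ^ 2 := pow_le_pow_left₀ (norm_nonneg _) h 2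
      _ = 1 / 16 * D ^ 2 := by ring
  nlinarith

lemma cut_one {y0 : EuclideanSpace ℝ (Fin n)} {D : ℝ} (hD : 0 < D) {y}
    (h : D / 3 ≤ ‖y - y0‖) : cut y0 D y = 1 := by
  refine Real.smoothTransition.one_of_one_le ?_
  have : 1 / 9 ≤ ‖y - y0‖ ^ 2 / D ^ 2 := by
    rw [le_div_iff₀ (by positivity)]
    calc 1 / 9 * D ^ 2 = (D / 3) ^ 2 := by ring
      _ ≤ ‖y - y0‖ ^ 2 := pow_le_pow_left₀ (by positivity) h 2
  nlinarith

lemma cut_grad {M : ℝ} (hM : ∀ t, |deriv Real.smoothTransition t| ≤ M)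
    (y0 : EuclideanSpace ℝ (Fin n)) {D : ℝ} (hD : 0 < D) {y : EuclideanSpace ℝ (Fin n)}
    (hy : ‖y - y0‖ ≤ D) : ‖gradient (cut y0 D) y‖ ≤ 42 * M / D := by
  have hM0 : 0 ≤ M := (abs_nonneg _).trans (hM 0)
  have h1 : HasFDerivAt (fun z : EuclideanSpace ℝ (Fin n) => ‖z - y0‖ ^ 2)
      (2 • (innerSL ℝ (y - y0))) y := by
    have := (hasStrictFDerivAt_norm_sq (y - y0)).hasFDerivAt.comp y
      ((hasFDerivAt_id y).sub_const y0)
    rw [ContinuousLinearMap.comp_id] at this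
    exact this
  have h2 : HasFDerivAt (fun z : EuclideanSpace ℝ (Fin n) =>
      (‖z - y0‖ ^ 2 / D ^ 2 - 1 / 16) * (144 / 7))
      ((144 / 7 : ℝ) • ((D ^ 2)⁻¹ • (2 • (innerSL ℝ (y - y0))))) y := by
    have := ((h1.const_mul ((D ^ 2)⁻¹)).sub_const (1 / 16 : ℝ)).mul_const (144 / 7 : ℝ)
    refine this.congr_of_eventuallyEq (Eventually.of_forall fun z => ?_)
    ring
  have h3 : HasDerivAt Real.smoothTransition
      (deriv Real.smoothTransition ((‖y - y0‖ ^ 2 / D ^ 2 - 1 / 16) * (144 / 7)))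
      ((‖y - y0‖ ^ 2 / D ^ 2 - 1 / 16) * (144 / 7)) :=
    ((Real.smoothTransition.contDiff (n := 1)).differentiable (by norm_num) _).hasDerivAt
  have h4 := h3.comp_hasFDerivAt y h2
  have h5 : fderiv ℝ (cut y0 D) y = _ := h4.fderiv
  have h6 : ‖gradient (cut y0 D) y‖ = ‖fderiv ℝ (cut y0 D) y‖ := by
    simp [gradient]
  rw [h6, h5, norm_smul, norm_smul, norm_smul, Real.norm_eq_abs, Real.norm_eq_abs,
    Real.norm_eq_abs]
  have h7 : ‖(2 • (innerSL ℝ (y - y0)) : EuclideanSpace ℝ (Fin n) →L[ℝ] ℝ)‖ ≤ 2 * D := by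
    rw [two_smul]
    refine (norm_add_le _ _).trans ?_
    rw [innerSL_apply_norm]
    linarith
  have h8 : |(144 / 7 : ℝ)| = 144 / 7 := abs_of_pos (by norm_num)
  have h9 : |(D ^ 2)⁻¹| = (D ^ 2)⁻¹ := abs_of_pos (by positivity)
  rw [h8, h9]
  calc |deriv Real.smoothTransition ((‖y - y0‖ ^ 2 / D ^ 2 - 1 / 16) * (144 / 7))| *
        (144 / 7 * ((D ^ 2)⁻¹ * ‖(2 • (innerSL ℝ (y - y0)) : EuclideanSpace ℝ (Fin n) →L[ℝ] ℝ)‖))
      ≤ M * (144 / 7 * ((D ^ 2)⁻¹ * (2 * D))) := by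
        gcongr
        exact hM _
    _ = (288 / 7) * M / D := by field_simp; ring
    _ ≤ 42 * M / D := by gcongr; norm_num

end Pool.Agent.W780.SN
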