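import Mathlib

/-!
Definitions for the sup-norm estimate of the first Dirichlet eigenfunction on convex domains.
-/

namespace Pool.Agent.W780.SN

open MeasureTheory Set Filter Topology Metric
open scoped ENNReal InnerProductSpace ContDiff

/-- `φ ∈ C_c^∞(Ω)`. -/
structure IsTest {n : ℕ} (Ω : Set (EuclideanSpace ℝ (Fin n)))
    (φ : EuclideanSpace ℝ (Fin n) → ℝ) : Prop where
  smooth : ContDiff ℝ ∞ φ
  compact : HasCompactSupport φ
  supp : tsupport φ ⊆ Ω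

/-- `u ∈ H^1_0(Ω)` with weak gradient `G`: `(u, G)` is the limit in `L^2(Ω)` of pairs
`(φ_k, ∇ φ_k)` with `φ_k ∈ C_c^∞(Ω)`. -/
structure IsH10 {n : ℕ} (Ω : Set (EuclideanSpace ℝ (Fin n)))
    (u : EuclideanSpace ℝ (Fin n) → ℝ)
    (G : EuclideanSpace ℝ (Fin n) → EuclideanSpace ℝ (Fin n)) : Prop where
  memU : MemLp u 2 (volume.restrict Ω)
  memG : MemLp G 2 (volume.restrict Ω)
  approx : ∃ φ : ℕ → EuclideanSpace ℝ (Fin n) → ℝ, (∀ k, IsTest Ω (φ k)) ∧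
    Tendsto (fun k => eLpNorm (fun x => φ k x - u x) 2 (volume.restrict Ω)) atTop (𝓝 0) ∧
    Tendsto (fun k => eLpNorm (fun x => gradient (φ k) x - G x) 2 (volume.restrict Ω)) atTop (𝓝 0)

/-- weak form of `-Δ u = lam u` in `Ω` (`G` is the weak gradient of `u`). -/
def WeakEq {n : ℕ} (Ω : Set (EuclideanSpace ℝ (Fin n))) (lam : ℝ)
    (u : EuclideanSpace ℝ (Fin n) → ℝ)
    (G : EuclideanSpace ℝ (Fin n) → EuclideanSpace ℝ (Fin n)) : Prop :=
  ∀ φ, IsTest Ω φ →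
    ∫ x in Ω, ⟪G x, gradient φ x⟫_ℝ = lam * ∫ x in Ω, u x * φ x

/-- `u` is a Dirichlet eigenfunction of `-Δ` on `Ω` for the eigenvalue `lam`:
`u ∈ H^1_0(Ω)`, `u ≠ 0`, `-Δ u = lam u` weakly. -/
def IsEigenfunction {n : ℕ} (Ω : Set (EuclideanSpace ℝ (Fin n))) (lam : ℝ)
    (u : EuclideanSpace ℝ (Fin n) → ℝ) : Prop :=
  ∃ G, IsH10 Ω u G ∧ WeakEq Ω lam u G ∧ ¬ (u =ᵐ[volume.restrict Ω] 0)

/-- `u` is a first Dirichlet eigenfunction on `Ω`: an eigenfunction for the smallest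
Dirichlet eigenvalue. -/
def IsFirstEigenfunction {n : ℕ} (Ω : Set (EuclideanSpace ℝ (Fin n)))
    (u : EuclideanSpace ℝ (Fin n) → ℝ) : Prop :=
  ∃ lam : ℝ, IsEigenfunction Ω lam u ∧
    ∀ (lam' : ℝ) (v : EuclideanSpace ℝ (Fin n) → ℝ), IsEigenfunction Ω lam' v → lam ≤ lam'

/-- The inradius: the supremum of the radii of the balls contained in `Ω`. -/
noncomputable def inradius {n : ℕ} (Ω : Set (EuclideanSpace ℝ (Fin n))) : ℝ :=
  sSup {r : ℝ | 0 < r ∧ ∃ x, ball x r ⊆ Ω}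

/-- Rayleigh inequality with constant `lam` for all test functions of `Ω`. -/
def Rayl {n : ℕ} (Ω : Set (EuclideanSpace ℝ (Fin n))) (lam : ℝ) : Prop :=
  ∀ v : EuclideanSpace ℝ (Fin n) → ℝ, IsTest Ω v →
    lam * ∫ x, v x ^ 2 ≤ ∫ x, ‖gradient v x‖ ^ 2

/-- Laplacian in coordinates. -/
noncomputable def lap {n : ℕ} (f : EuclideanSpace ℝ (Fin n) → ℝ)
    (x : EuclideanSpace ℝ (Fin n)) : ℝ :=
  ∑ i : Fin n, fderiv ℝ (fun y => fderiv ℝ f y (EuclideanSpace.single i 1)) x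
    (EuclideanSpace.single i 1)

end Pool.Agent.W780.SN
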