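import Pool.Agent.W780.SN.Tools

/-!
Local bound: `u(x)^2` is bounded by the mean of `u^2` over a ball.
-/

namespace Pool.Agent.W780.SN

open MeasureTheory Set Filter Topology Metric
open scoped ENNReal InnerProductSpace ContDiff

theorem local_sup (hK : S_Kato) (hKer : S_Kernel) (n : ℕ) (hn : 0 < n) :
    ∃ C : ℝ, 0 < C ∧ ∀ (Ω : Set (EuclideanSpace ℝ (Fin n))) (lam : ℝ)
      (u : EuclideanSpace ℝ (Fin n) → ℝ)
      (G : EuclideanSpace ℝ (Fin n) → EuclideanSpace ℝ (Fin n)) (r : ℝ),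
      IsOpen Ω → Bornology.IsBounded Ω → 0 ≤ lam → 0 < r → IsH10 Ω u G → WeakEq Ω lam u G →
      ∀ᵐ x ∂(volume.restrict Ω), u x ^ 2 ≤
        C * Real.exp (2 * lam * r ^ 2) / r ^ n * ∫ y in Ω ∩ ball x r, u y ^ 2 := by
  obtain ⟨C0, hC0, hker⟩ := hKer n hn
  set vb : ℝ := (volume (ball (0 : EuclideanSpace ℝ (Fin n)) 1)).toReal with hvb
  have hvb0 : 0 ≤ vb := ENNReal.toReal_nonneg
  refine ⟨C0 ^ 2 * vb + 1, by positivity, ?_⟩
  intro Ω lam u G r hO hB hlam hr hH hW
  haveI : IsFiniteMeasure (volume.restrict Ω) :=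
    ⟨by rw [Measure.restrict_apply_univ]; exact hB.measure_lt_top⟩
  have hu1 : IntegrableOn (fun x => |u x|) Ω := (hH.memU.integrable (by norm_num)).abs
  set w : EuclideanSpace ℝ (Fin n) → ℝ := Ω.indicator (fun x => |u x|) with hw
  have hwi : Integrable w := hu1.integrable_indicator hO.measurableSet
  have hw0 : ∀ x, 0 ≤ w x := fun x => indicator_nonneg (fun y _ => abs_nonneg _) x
  have hind : ∀ f : EuclideanSpace ℝ (Fin n) → ℝ, ∫ x, w x * f x = ∫ x in Ω, |u x| * f x := by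
    intro f
    rw [← integral_indicator hO.measurableSet]
    congr 1; ext x
    by_cases hx : x ∈ Ω <;> simp [hw, hx]
  have hae := hker w lam r hwi hw0 hlam hr (by
    intro ψ hψ hψ0
    rw [hind, hind]
    exact hK n Ω lam u G hO hB hlam hH hW ψ hψ hψ0)
  rw [ae_restrict_iff' hO.measurableSet]
  filter_upwards [hae] with x hx hxΩ
  have hwx : w x = |u x| := by simp [hw, hxΩ]
  rw [hwx] at hx
  have hBm : MeasurableSet (ball x r) := isOpen_ball.measurableSet
  have hI : ∫ y in ball x r, w y = ∫ y in Ω ∩ ball x r, |u y| := by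
    rw [hw, integral_indicator hO.measurableSet, Measure.restrict_restrict hO.measurableSet]
  have hsub : volume.restrict (Ω ∩ ball x r) ≤ volume.restrict Ω :=
    Measure.restrict_mono inter_subset_left le_rfl
  have hm : MemLp u 2 (volume.restrict (Ω ∩ ball x r)) := hH.memU.mono_measure hsub
  haveI : IsFiniteMeasure (volume.restrict (Ω ∩ ball x r)) :=
    ⟨by rw [Measure.restrict_apply_univ]
        exact lt_of_le_of_lt (measure_mono inter_subset_left) hB.measure_lt_top⟩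
  have h1 : MemLp (fun _ : EuclideanSpace ℝ (Fin n) => (1 : ℝ)) 2
      (volume.restrict (Ω ∩ ball x r)) := memLp_const 1
  have hm' : MemLp (fun y => |u y|) 2 (volume.restrict (Ω ∩ ball x r)) := hm.abs
  have hcs := cs_real (μ := volume.restrict (Ω ∩ ball x r)) h1 hm'
  simp only [one_mul, sq_abs, one_pow] at hcs
  set J := ∫ y in Ω ∩ ball x r, u y ^ 2 with hJ
  have hJ0 : 0 ≤ J := integral_nonneg fun y => sq_nonneg _
  have hI0 : 0 ≤ ∫ y in Ω ∩ ball x r, |u y| := integral_nonneg fun y => abs_nonneg _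
  rw [abs_of_nonneg hI0] at hcs
  have hone : ∫ _ in Ω ∩ ball x r, (1 : ℝ) ≤ vb * r ^ n := by
    rw [setIntegral_const, smul_eq_mul, mul_one]
    have hle : volume (Ω ∩ ball x r) ≤ volume (ball x r) := measure_mono inter_subset_right
    have hfin : volume (ball x r) ≠ ⊤ := measure_ball_lt_top.ne
    have h2 : (volume (Ω ∩ ball x r)).toReal ≤ (volume (ball x r)).toReal :=
      ENNReal.toReal_mono hfin hle
    have h3 : (volume (ball x r)).toReal = vb * r ^ n := by
      rw [Measure.addHaar_ball_of_pos volume x hr]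
      simp only [finrank_euclideanSpace, Fintype.card_fin]
      rw [ENNReal.toReal_mul, ENNReal.toReal_ofReal (by positivity), mul_comm]
    rw [Measure.real]
    linarith
  have hone0 : 0 ≤ ∫ _ in Ω ∩ ball x r, (1 : ℝ) := integral_nonneg fun y => zero_le_one
  have hI2 : (∫ y in Ω ∩ ball x r, |u y|) ^ 2 ≤ vb * r ^ n * J := by
    calc (∫ y in Ω ∩ ball x r, |u y|) ^ 2
        ≤ (√(∫ _ in Ω ∩ ball x r, (1 : ℝ)) * √J) ^ 2 := by
          exact pow_le_pow_left₀ hI0 hcs 2
      _ = (∫ _ in Ω ∩ ball x r, (1 : ℝ)) * J := by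
          rw [mul_pow, Real.sq_sqrt hone0, Real.sq_sqrt hJ0]
      _ ≤ vb * r ^ n * J := by gcongr
  have hA0 : 0 ≤ C0 * Real.exp (lam * r ^ 2) / r ^ n := by positivity
  calc u x ^ 2 = |u x| ^ 2 := (sq_abs _).symm
    _ ≤ (C0 * Real.exp (lam * r ^ 2) / r ^ n * ∫ y in Ω ∩ ball x r, |u y|) ^ 2 := by
        rw [hI] at hx
        exact pow_le_pow_left₀ (abs_nonneg _) hx 2
    _ = (C0 * Real.exp (lam * r ^ 2) / r ^ n) ^ 2 * (∫ y in Ω ∩ ball x r, |u y|) ^ 2 := by ring
    _ ≤ (C0 * Real.exp (lam * r ^ 2) / r ^ n) ^ 2 * (vb * r ^ n * J) := by gcongr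
    _ = (C0 ^ 2 * vb) * Real.exp (2 * lam * r ^ 2) / r ^ n * J := by
        have : Real.exp (2 * lam * r ^ 2) = Real.exp (lam * r ^ 2) ^ 2 := by
          rw [← Real.exp_nat_mul]; congr 1; push_cast; ring
        rw [this]
        field_simp
    _ ≤ (C0 ^ 2 * vb + 1) * Real.exp (2 * lam * r ^ 2) / r ^ n * J := by
        gcongr
        linarith

end Pool.Agent.W780.SN
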