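import Pool.Agent.W780.SN.Shell
import Pool.Agent.W780.SN.Local

/-!
Assembly of the sup-norm estimate.
-/

namespace Pool.Agent.W780.SN

open MeasureTheory Set Filter Topology Metric
open scoped ENNReal InnerProductSpace ContDiff

lemma geom_far {n : ℕ} {Ω : Set (EuclideanSpace ℝ (Fin n))} (hne : Ω.Nonempty)
    (hD : 0 < diam Ω) (x : EuclideanSpace ℝ (Fin n)) :
    ∃ y0 ∈ Ω, 4 / 9 * diam Ω ≤ ‖x - y0‖ := by
  have h1 : ∃ a ∈ Ω, ∃ b ∈ Ω, 8 / 9 * diam Ω ≤ dist a b := by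
    by_contra hcon
    push Not at hcon
    have h2 : diam Ω ≤ 8 / 9 * diam Ω :=
      diam_le_of_forall_dist_le (by positivity) fun a ha b hb => (hcon a ha b hb).le
    linarith
  obtain ⟨a, ha, b, hb, hab⟩ := h1
  by_cases h : 4 / 9 * diam Ω ≤ ‖x - a‖
  · exact ⟨a, ha, h⟩
  · refine ⟨b, hb, ?_⟩
    push Not at h
    have h3 : dist a b ≤ ‖x - a‖ + ‖x - b‖ := by
      rw [dist_eq_norm]
      have : a - b = (x - b) - (x - a) := by abel
      rw [this]
      exact (norm_sub_le _ _).trans (by linarith)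
    linarith

lemma ball_diam {n : ℕ} (hn : 0 < n) {Ω : Set (EuclideanSpace ℝ (Fin n))}
    (hB : Bornology.IsBounded Ω) {x : EuclideanSpace ℝ (Fin n)} {r : ℝ} (hr : 0 < r)
    (h : ball x r ⊆ Ω) : r ≤ diam Ω := by
  haveI : Nontrivial (EuclideanSpace ℝ (Fin n)) := by
    haveI : Nonempty (Fin n) := ⟨⟨0, hn⟩⟩
    infer_instance
  obtain ⟨v, hv⟩ := exists_norm_eq (EuclideanSpace ℝ (Fin n)) (c := 1) zero_le_one
  refine le_of_forall_lt fun s hs => ?_
  by_cases hs0 : s < 0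
  · exact lt_of_lt_of_le hs0 diam_nonneg
  push Not at hs0
  obtain ⟨t, hst, htr⟩ := exists_between hs
  have ht0 : 0 ≤ t := by linarith
  have h1 : x + t • v ∈ Ω := h (by
    rw [mem_ball, dist_eq_norm, add_sub_cancel_left, norm_smul, hv, Real.norm_eq_abs,
      abs_of_nonneg ht0, mul_one]
    exact htr)
  have h2 : x ∈ Ω := h (mem_ball_self hr)
  have h3 := dist_le_diam_of_mem hB h1 h2
  rw [dist_eq_norm, add_sub_cancel_left, norm_smul, hv, Real.norm_eq_abs,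
    abs_of_nonneg ht0, mul_one] at h3
  linarith

/-- facts about the inradius -/
lemma inradius_facts {n : ℕ} (hn : 0 < n) {Ω : Set (EuclideanSpace ℝ (Fin n))}
    (hO : IsOpen Ω) (hB : Bornology.IsBounded Ω) (hne : Ω.Nonempty) :
    0 < inradius Ω ∧ inradius Ω ≤ diam Ω ∧ ∃ x, ball x (inradius Ω / 2) ⊆ Ω := by
  set S : Set ℝ := {r : ℝ | 0 < r ∧ ∃ x : EuclideanSpace ℝ (Fin n), ball x r ⊆ Ω} with hS
  obtain ⟨z, hz⟩ := hne
  obtain ⟨ε, hε, hball⟩ := Metric.isOpen_iff.1 hO z hz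
  have hSne : S.Nonempty := ⟨ε, hε, z, hball⟩
  have hbdd : BddAbove S := ⟨diam Ω, fun r hr => by
    obtain ⟨hr0, x, hx⟩ := hr
    exact ball_diam hn hB hr0 hx⟩
  have hpos : 0 < inradius Ω := lt_of_lt_of_le hε (le_csSup hbdd ⟨hε, z, hball⟩)
  refine ⟨hpos, ?_, ?_⟩
  · exact csSup_le hSne fun r hr => by
      obtain ⟨hr0, x, hx⟩ := hr
      exact ball_diam hn hB hr0 hx
  · obtain ⟨r, ⟨hr0, x, hx⟩, hlt⟩ := exists_lt_of_lt_csSup hSne (half_lt_self hpos)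
    exact ⟨x, (ball_subset_ball hlt.le).trans hx⟩

lemma sq_pos_of_ne {n : ℕ} {Ω : Set (EuclideanSpace ℝ (Fin n))}
    {u : EuclideanSpace ℝ (Fin n) → ℝ} (hu : MemLp u 2 (volume.restrict Ω))
    (hnz : ¬ (u =ᵐ[volume.restrict Ω] 0)) : 0 < ∫ y in Ω, u y ^ 2 := by
  have hi : Integrable (fun y => u y ^ 2) (volume.restrict Ω) := by
    have := integrable_sq hu
    simpa using this
  have h0 : 0 ≤ ∫ y in Ω, u y ^ 2 := integral_nonneg fun y => sq_nonneg _
  refine lt_of_le_of_ne h0 fun h => hnz ?_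
  have := (integral_eq_zero_iff_of_nonneg (fun y => sq_nonneg (u y)) hi).1 h.symm
  filter_upwards [this] with y hy
  simpa using hy

lemma energy_eq {n : ℕ} {Ω : Set (EuclideanSpace ℝ (Fin n))} {lam : ℝ}
    {u : EuclideanSpace ℝ (Fin n) → ℝ}
    {G : EuclideanSpace ℝ (Fin n) → EuclideanSpace ℝ (Fin n)} (hH : IsH10 Ω u G)
    (hW : WeakEq Ω lam u G) : ∫ y in Ω, ‖G y‖ ^ 2 = lam * ∫ y in Ω, u y ^ 2 := by
  obtain ⟨φ, hφ, hφu, hφG⟩ := hH.approx
  have t1 : Tendsto (fun k => ∫ y in Ω, ⟪G y, gradient (φ k) y⟫_ℝ) atTop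
      (𝓝 (∫ y in Ω, ‖G y‖ ^ 2)) := by
    have h0 := int_sq_tendsto_zero (fun k => (hφ k).grad_memLp (volume.restrict Ω)) hH.memG hφG
    have h1 : Tendsto (fun k => √(∫ y in Ω, ‖G y‖ ^ 2) *
        √(∫ y in Ω, ‖gradient (φ k) y - G y‖ ^ 2)) atTop (𝓝 0) := by
      have := h0.sqrt.const_mul (√(∫ y in Ω, ‖G y‖ ^ 2))
      simpa using this
    rw [tendsto_iff_norm_sub_tendsto_zero]
    refine squeeze_zero (fun k => norm_nonneg _) (fun k => ?_) h1
    have h2 := cs (μ := volume.restrict Ω) hH.memG (((hφ k).grad_memLp _).sub hH.memG)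
    refine le_trans (le_of_eq ?_) h2
    rw [Real.norm_eq_abs]
    congr 1
    have e1 := integrable_inner hH.memG ((hφ k).grad_memLp (volume.restrict Ω))
    have e2 := integrable_sq hH.memG
    rw [← integral_sub e1 e2]
    congr 1; ext y
    simp only [Pi.sub_apply, inner_sub_right, real_inner_self_eq_norm_sq]
  have t2 : Tendsto (fun k => ∫ y in Ω, u y * φ k y) atTop (𝓝 (∫ y in Ω, u y ^ 2)) := by
    have h0 := int_sq_tendsto_zero (fun k => (hφ k).memLp (volume.restrict Ω)) hH.memU hφu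
    simp only [Real.norm_eq_abs, sq_abs] at h0
    have h1 : Tendsto (fun k => √(∫ y in Ω, u y ^ 2) *
        √(∫ y in Ω, (φ k y - u y) ^ 2)) atTop (𝓝 0) := by
      have := h0.sqrt.const_mul (√(∫ y in Ω, u y ^ 2))
      simpa using this
    rw [tendsto_iff_norm_sub_tendsto_zero]
    refine squeeze_zero (fun k => norm_nonneg _) (fun k => ?_) h1
    have h2 := cs_real (μ := volume.restrict Ω) hH.memU (((hφ k).memLp _).sub hH.memU)
    refine le_trans (le_of_eq ?_) h2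
    rw [Real.norm_eq_abs]
    congr 1
    have e1 : Integrable (fun y => u y * φ k y) (volume.restrict Ω) := by
      have := integrable_inner ((hφ k).memLp (volume.restrict Ω)) hH.memU
      simpa only [RCLike.inner_apply, conj_trivial] using this
    have e2 : Integrable (fun y => u y ^ 2) (volume.restrict Ω) := by
      have := integrable_sq hH.memU
      simpa using this
    rw [← integral_sub e1 e2]
    congr 1; ext y
    simp only [Pi.sub_apply]; ring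
  have t3 : Tendsto (fun k => ∫ y in Ω, ⟪G y, gradient (φ k) y⟫_ℝ) atTop
      (𝓝 (lam * ∫ y in Ω, u y ^ 2)) := by
    refine (t2.const_mul lam).congr fun k => ?_
    exact (hW (φ k) (hφ k)).symm
  exact tendsto_nhds_unique t1 t3

lemma lam_nonneg {n : ℕ} {Ω : Set (EuclideanSpace ℝ (Fin n))} {lam : ℝ}
    {u : EuclideanSpace ℝ (Fin n) → ℝ}
    {G : EuclideanSpace ℝ (Fin n) → EuclideanSpace ℝ (Fin n)} (hH : IsH10 Ω u G)
    (hW : WeakEq Ω lam u G) (hnz : ¬ (u =ᵐ[volume.restrict Ω] 0)) : 0 ≤ lam := by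
  have hN := sq_pos_of_ne hH.memU hnz
  have heq := energy_eq hH hW
  have hG0 : 0 ≤ ∫ y in Ω, ‖G y‖ ^ 2 := integral_nonneg fun y => by positivity
  rw [heq] at hG0
  exact nonneg_of_mul_nonneg_left hG0 hN

/-- pointwise estimate -/
theorem pointwise (hR : S_Radial) (hC : S_Compet) (hL : S_LamUpper) (hK : S_Kato)
    (hKer : S_Kernel) (hF : S_First) (n : ℕ) (hn : 0 < n) :
    ∃ C : ℝ, 0 < C ∧ ∀ Ω : Set (EuclideanSpace ℝ (Fin n)), IsOpen Ω → Convex ℝ Ω →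
      Bornology.IsBounded Ω → Ω.Nonempty → ∀ u, IsFirstEigenfunction Ω u →
      ∀ᵐ x ∂(volume.restrict Ω), u x ^ 2 ≤
        C * (inradius Ω / diam Ω) ^ ((1 : ℝ) / 3) / inradius Ω ^ n * ∫ y in Ω, u y ^ 2 := by
  obtain ⟨C1, hC1, hloc⟩ := local_sup hK hKer n hn
  obtain ⟨C2, hC2, hshell⟩ := shell_bound hR hC n hn
  obtain ⟨K, hK0, hup⟩ := hL n
  set C3 : ℝ := 2 * C2 + 96 * K with hC3
  have hC30 : 0 < C3 := by positivity
  refine ⟨C1 * Real.exp (8 * K) * (4 * Real.pi * √C3) + C1 * Real.exp (8 * K) * 3,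
    by have := Real.pi_pos; positivity, ?_⟩
  intro Ω hO hcv hB hne u hu
  obtain ⟨lam, ⟨G, hH, hW, hnz⟩, hmin⟩ := hu
  have hray : Rayl Ω lam := hF n hn Ω hO hB lam u ⟨G, hH, hW, hnz⟩ hmin
  obtain ⟨hρ, hρD, xc, hxc⟩ := inradius_facts hn hO hB hne
  set ρ := inradius Ω with hρdef
  set D := diam Ω with hDdef
  have hD : 0 < D := lt_of_lt_of_le hρ hρD
  have hlamK : lam ≤ 4 * K / ρ ^ 2 := by
    have := hup Ω lam hray xc (ρ / 2) (by positivity) hxc
    calc lam ≤ K / (ρ / 2) ^ 2 := this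
      _ = 4 * K / ρ ^ 2 := by field_simp; ring
  have hlam : 0 ≤ lam := lam_nonneg hH hW hnz
  have hN : 0 ≤ ∫ y in Ω, u y ^ 2 := integral_nonneg fun y => sq_nonneg _
  have hexp : Real.exp (2 * lam * ρ ^ 2) ≤ Real.exp (8 * K) := by
    apply Real.exp_le_exp.2
    have : lam * ρ ^ 2 ≤ 4 * K := by
      have := mul_le_mul_of_nonneg_right hlamK (sq_nonneg ρ)
      rwa [div_mul_cancel₀ _ (by positivity)] at this
    linarith
  have hq0 : 0 < ρ / D := by positivity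
  have hq13 : 0 < (ρ / D) ^ ((1 : ℝ) / 3) := Real.rpow_pos_of_pos hq0 _
  have hpi := Real.pi_pos
  filter_upwards [hloc Ω lam u G ρ hO hB hlam hρ hH hW, ae_restrict_mem hO.measurableSet]
    with x hx hxΩ
  have hJ0 : 0 ≤ ∫ y in Ω ∩ ball x ρ, u y ^ 2 := integral_nonneg fun y => sq_nonneg _
  have hx1 : u x ^ 2 ≤ C1 * Real.exp (8 * K) / ρ ^ n * ∫ y in Ω ∩ ball x ρ, u y ^ 2 := by
    refine hx.trans ?_
    gcongr
  by_cases hsmall : ρ ≤ D / 27
  · -- thin case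
    obtain ⟨y0, hy0, hfar⟩ := geom_far hne hD x
    set l : ℝ := (ρ / D) ^ ((2 : ℝ) / 3) * D with hl
    have hl0 : 0 < l := by positivity
    have hq27 : ρ / D ≤ 1 / 27 := by
      rw [div_le_div_iff₀ hD (by norm_num)]; linarith
    have hl8 : l ≤ D / 8 := by
      have h1 : (ρ / D) ^ ((2 : ℝ) / 3) ≤ (1 / 27 : ℝ) ^ ((2 : ℝ) / 3) :=
        Real.rpow_le_rpow hq0.le hq27 (by norm_num)
      have h2 : (1 / 27 : ℝ) ^ ((2 : ℝ) / 3) = 1 / 9 := by
        have : (1 / 27 : ℝ) = (1 / 3 : ℝ) ^ (3 : ℝ) := by norm_num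
        rw [this, ← Real.rpow_mul (by norm_num)]
        norm_num
      rw [hl]
      rw [h2] at h1
      nlinarith
    have hl3 : l ^ 3 = ρ ^ 2 * D := by
      rw [hl, mul_pow, ← Real.rpow_natCast, ← Real.rpow_mul hq0.le]
      norm_num
      field_simp
    have hρl : ρ / l = (ρ / D) ^ ((1 : ℝ) / 3) := by
      rw [hl, div_eq_iff (by positivity)]
      have : (ρ / D) ^ ((1 : ℝ) / 3) * ((ρ / D) ^ ((2 : ℝ) / 3) * D) =
          ((ρ / D) ^ ((1 : ℝ) / 3) * (ρ / D) ^ ((2 : ℝ) / 3)) * D := by ring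
      rw [this, ← Real.rpow_add hq0]
      norm_num
      field_simp
    have hdist : ∀ y ∈ Ω, ‖y - y0‖ ≤ D := fun y hy => by
      rw [← dist_eq_norm]; exact dist_le_diam_of_mem hB hy hy0
    have hfar' : ∀ y ∈ Ω ∩ ball x ρ, D / 3 ≤ ‖y - y0‖ := by
      intro y hy
      have h1 : ‖y - x‖ < ρ := by rw [← dist_eq_norm]; exact hy.2
      have h2 : ‖x - y0‖ ≤ ‖y - y0‖ + ‖y - x‖ := by
        have : x - y0 = (y - y0) - (y - x) := by abel
        rw [this]; exact norm_sub_le _ _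
      linarith
    have hs := hshell Ω y0 x lam D l ρ u G hO hcv hy0 hdist hray hlam hl0 hl8 hρ hH hW hfar'
    have hKle : C2 / D ^ 2 + 24 * lam * l / D + C2 / l ^ 2 ≤ C3 / l ^ 2 := by
      have h1 : C2 / D ^ 2 ≤ C2 / l ^ 2 := by
        gcongr; linarith
      have h2 : 24 * lam * l / D ≤ 96 * K / l ^ 2 := by
        have h3 : 24 * lam * l / D ≤ 24 * (4 * K / ρ ^ 2) * l / D := by gcongr
        refine h3.trans (le_of_eq ?_)
        rw [div_eq_div_iff hD.ne' (by positivity)]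
        have : 24 * (4 * K / ρ ^ 2) * l * l ^ 2 = 24 * (4 * K / ρ ^ 2) * l ^ 3 := by ring
        rw [this, hl3]
        field_simp
        ring
      have h3 : C3 / l ^ 2 = C2 / l ^ 2 + 96 * K / l ^ 2 + C2 / l ^ 2 := by rw [hC3]; ring
      rw [h3]; linarith
    have hsq : √(C2 / D ^ 2 + 24 * lam * l / D + C2 / l ^ 2) ≤ √C3 / l := by
      refine (Real.sqrt_le_sqrt hKle).trans (le_of_eq ?_)
      rw [Real.sqrt_div hC30.le, Real.sqrt_sq hl0.le]
    have hJ : ∫ y in Ω ∩ ball x ρ, u y ^ 2 ≤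
        4 * Real.pi * √C3 * (ρ / D) ^ ((1 : ℝ) / 3) * ∫ y in Ω, u y ^ 2 := by
      refine hs.trans ?_
      have : 4 * Real.pi * ρ * √(C2 / D ^ 2 + 24 * lam * l / D + C2 / l ^ 2) ≤
          4 * Real.pi * √C3 * (ρ / D) ^ ((1 : ℝ) / 3) := by
        calc 4 * Real.pi * ρ * √(C2 / D ^ 2 + 24 * lam * l / D + C2 / l ^ 2)
            ≤ 4 * Real.pi * ρ * (√C3 / l) := by gcongr
          _ = 4 * Real.pi * √C3 * (ρ / l) := by ring
          _ = _ := by rw [hρl]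
      gcongr
    calc u x ^ 2 ≤ C1 * Real.exp (8 * K) / ρ ^ n * ∫ y in Ω ∩ ball x ρ, u y ^ 2 := hx1
      _ ≤ C1 * Real.exp (8 * K) / ρ ^ n *
          (4 * Real.pi * √C3 * (ρ / D) ^ ((1 : ℝ) / 3) * ∫ y in Ω, u y ^ 2) := by gcongr
      _ = (C1 * Real.exp (8 * K) * (4 * Real.pi * √C3)) * (ρ / D) ^ ((1 : ℝ) / 3) / ρ ^ n *
          ∫ y in Ω, u y ^ 2 := by ring
      _ ≤ _ := by
          gcongr
          have : 0 ≤ C1 * Real.exp (8 * K) * 3 := by positivity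
          linarith
  · -- fat case
    push Not at hsmall
    have hq27 : 1 / 27 ≤ ρ / D := by
      rw [div_le_div_iff₀ (by norm_num) hD]; linarith
    have h13 : 1 / 3 ≤ (ρ / D) ^ ((1 : ℝ) / 3) := by
      have h1 : (1 / 27 : ℝ) ^ ((1 : ℝ) / 3) ≤ (ρ / D) ^ ((1 : ℝ) / 3) :=
        Real.rpow_le_rpow (by norm_num) hq27 (by norm_num)
      have h2 : (1 / 27 : ℝ) ^ ((1 : ℝ) / 3) = 1 / 3 := by
        have : (1 / 27 : ℝ) = (1 / 3 : ℝ) ^ (3 : ℝ) := by norm_num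
        rw [this, ← Real.rpow_mul (by norm_num)]
        norm_num
      rwa [h2] at h1
    have hJle : ∫ y in Ω ∩ ball x ρ, u y ^ 2 ≤ ∫ y in Ω, u y ^ 2 := by
      refine setIntegral_mono_set ?_ (Eventually.of_forall fun y => sq_nonneg _)
        (LE.le.eventuallyLE inter_subset_left)
      have h5 : Integrable (fun y => u y ^ 2) (volume.restrict Ω) := by
        have := integrable_sq hH.memU
        simpa using this
      exact h5
    calc u x ^ 2 ≤ C1 * Real.exp (8 * K) / ρ ^ n * ∫ y in Ω ∩ ball x ρ, u y ^ 2 := hx1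
      _ ≤ C1 * Real.exp (8 * K) / ρ ^ n * (3 * (ρ / D) ^ ((1 : ℝ) / 3) * ∫ y in Ω, u y ^ 2) := by
          gcongr
          refine hJle.trans ?_
          nlinarith
      _ = (C1 * Real.exp (8 * K) * 3) * (ρ / D) ^ ((1 : ℝ) / 3) / ρ ^ n *
          ∫ y in Ω, u y ^ 2 := by ring
      _ ≤ _ := by
          gcongr
          have : 0 ≤ C1 * Real.exp (8 * K) * (4 * Real.pi * √C3) := by positivity
          linarith

/-- sup-norm estimate -/
theorem supNorm (hR : S_Radial) (hC : S_Compet) (hL : S_LamUpper) (hK : S_Kato)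
    (hKer : S_Kernel) (hF : S_First) (n : ℕ) (hn : 0 < n) :
    ∃ C : ℝ, 0 < C ∧ ∀ Ω : Set (EuclideanSpace ℝ (Fin n)), IsOpen Ω → Convex ℝ Ω →
      Bornology.IsBounded Ω → Ω.Nonempty → ∀ u, IsFirstEigenfunction Ω u →
      ENNReal.ofReal (inradius Ω ^ ((n : ℝ) / 2)) * eLpNorm u ⊤ (volume.restrict Ω) ≤
        ENNReal.ofReal (C * (inradius Ω / diam Ω) ^ ((1 : ℝ) / 6)) *
          eLpNorm u 2 (volume.restrict Ω) := by
  obtain ⟨C, hC0, hpt⟩ := pointwise hR hC hL hK hKer hF n hn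
  refine ⟨√C, by positivity, ?_⟩
  intro Ω hO hcv hB hne u hu
  have hp := hpt Ω hO hcv hB hne u hu
  obtain ⟨lam, ⟨G, hH, hW, hnz⟩, hmin⟩ := hu
  obtain ⟨hρ, hρD, -⟩ := inradius_facts hn hO hB hne
  set ρ := inradius Ω with hρdef
  set D := diam Ω with hDdef
  have hD : 0 < D := lt_of_lt_of_le hρ hρD
  have hq0 : 0 < ρ / D := by positivity
  set N := ∫ y in Ω, u y ^ 2 with hN
  have hN0 : 0 ≤ N := integral_nonneg fun y => sq_nonneg _
  set B : ℝ := √C * (ρ / D) ^ ((1 : ℝ) / 6) / ρ ^ ((n : ℝ) / 2) * √N with hBdef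
  have hB0 : 0 ≤ B := by positivity
  have hρn : 0 < ρ ^ ((n : ℝ) / 2) := Real.rpow_pos_of_pos hρ _
  have hBsq : B ^ 2 = C * (ρ / D) ^ ((1 : ℝ) / 3) / ρ ^ n * N := by
    rw [hBdef, mul_pow, div_pow, mul_pow, Real.sq_sqrt hC0.le, Real.sq_sqrt hN0]
    have h1 : ((ρ / D) ^ ((1 : ℝ) / 6)) ^ 2 = (ρ / D) ^ ((1 : ℝ) / 3) := by
      rw [← Real.rpow_natCast, ← Real.rpow_mul hq0.le]; norm_num
    have h2 : (ρ ^ ((n : ℝ) / 2)) ^ 2 = ρ ^ n := by
      rw [← Real.rpow_natCast, ← Real.rpow_mul hρ.le, ← Real.rpow_natCast]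
      congr 1; push_cast; ring
    rw [h1, h2]
  have hae : ∀ᵐ x ∂(volume.restrict Ω), ‖u x‖ ≤ B := by
    filter_upwards [hp] with x hx
    rw [Real.norm_eq_abs]
    refine abs_le_of_sq_le_sq ?_ hB0
    rw [hBsq]
    exact hx
  have htop : eLpNorm u ⊤ (volume.restrict Ω) ≤ ENNReal.ofReal B := by
    rw [eLpNorm_exponent_top]
    exact eLpNormEssSup_le_of_ae_bound hae
  have h2 : eLpNorm u 2 (volume.restrict Ω) = ENNReal.ofReal (√N) := by
    have h3 := eLpNorm_sq hH.memU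
    simp only [Real.norm_eq_abs, sq_abs] at h3
    rw [← hN] at h3
    rw [← h3, Real.sqrt_sq ENNReal.toReal_nonneg, ENNReal.ofReal_toReal hH.memU.2.ne]
  rw [h2, ← ENNReal.ofReal_mul (by positivity)]
  calc ENNReal.ofReal (ρ ^ ((n : ℝ) / 2)) * eLpNorm u ⊤ (volume.restrict Ω)
      ≤ ENNReal.ofReal (ρ ^ ((n : ℝ) / 2)) * ENNReal.ofReal B := by gcongr
    _ = ENNReal.ofReal (ρ ^ ((n : ℝ) / 2) * B) := (ENNReal.ofReal_mul hρn.le).symm
    _ = ENNReal.ofReal (√C * (ρ / D) ^ ((1 : ℝ) / 6) * √N) := by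
        congr 1
        rw [hBdef]
        field_simp

end Pool.Agent.W780.SN
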