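import Pool.Agent.W780.SN.FirstC
import Pool.Agent.W780.SN.Final

/-!
Existence of a first eigenfunction (the construction is the one of `P174.first`).
-/

namespace Pool.Agent.W780.SN

open MeasureTheory Set Filter Topology Metric
open scoped ENNReal InnerProductSpace ContDiff
open Pool.Agent.W780.SN.P174

lemma exists_unit_test {n : ℕ} {Ω : Set (EuclideanSpace ℝ (Fin n))} (hO : IsOpen Ω)
    (hne : Ω.Nonempty) : ∃ w : EuclideanSpace ℝ (Fin n) → ℝ, IsTest Ω w ∧ ∫ x, w x ^ 2 = 1 := by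
  obtain ⟨z, hz⟩ := hne
  obtain ⟨ε, hε, hball⟩ := Metric.isOpen_iff.1 hO z hz
  let f : ContDiffBump z := ⟨ε / 4, ε / 2, by positivity, by linarith⟩
  have hf : IsTest Ω f := by
    refine ⟨f.contDiff, f.hasCompactSupport, ?_⟩
    rw [f.tsupport_eq]
    exact (closedBall_subset_ball (half_lt_self hε)).trans hball
  have hpos : 0 < ∫ x, f x ^ 2 := by
    have hc : Continuous fun x => f x ^ 2 := f.continuous.pow 2
    refine hc.integral_pos_of_hasCompactSupport_nonneg_nonzero ?_ (fun x => sq_nonneg _)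
      (x := z) ?_
    · have := f.hasCompactSupport.comp_left (g := fun t : ℝ => t ^ 2) (by norm_num)
      exact this
    · have : f z = 1 := f.one_of_mem_closedBall (mem_closedBall_self f.rIn_pos.le)
      rw [this]; norm_num
  refine ⟨(Real.sqrt (∫ x, f x ^ 2))⁻¹ • (f : EuclideanSpace ℝ (Fin n) → ℝ), test_smul _ hf, ?_⟩
  have : ∀ x, ((Real.sqrt (∫ x, f x ^ 2))⁻¹ • (f : EuclideanSpace ℝ (Fin n) → ℝ)) x ^ 2 =
      (∫ x, f x ^ 2)⁻¹ * f x ^ 2 := by
    intro x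
    rw [Pi.smul_apply, smul_eq_mul, mul_pow, inv_pow, Real.sq_sqrt hpos.le]
  simp_rw [this]
  rw [integral_const_mul, inv_mul_cancel₀ hpos.ne']

/-- Existence of a minimiser of the Rayleigh quotient. -/
theorem exists_min {n : ℕ} (hn : 0 < n) {Ω : Set (EuclideanSpace ℝ (Fin n))} (hΩ : IsOpen Ω)
    (hΩb : Bornology.IsBounded Ω) (hne : Ω.Nonempty) :
    ∃ (L : ℝ) (u : EuclideanSpace ℝ (Fin n) → ℝ), IsEigenfunction Ω L u ∧ Rayl Ω L := by
  have hQ := exists_unit_test hΩ hne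
  let Q : Set ℝ := {q | ∃ w, IsTest Ω w ∧ ∫ x, w x ^ 2 = 1 ∧ q = ∫ x, ‖gradient w x‖ ^ 2}
  have hQne : Q.Nonempty := by
    obtain ⟨w, hw, hw1⟩ := hQ
    exact ⟨_, w, hw, hw1, rfl⟩
  have hQb : BddBelow Q := ⟨0, by rintro q ⟨w, -, -, rfl⟩; exact integral_nonneg fun x => sq_nonneg _⟩
  set L := sInf Q with hLdef
  have hL0 : 0 ≤ L := le_csInf hQne (by
    rintro q ⟨w, -, -, rfl⟩; exact integral_nonneg fun x => sq_nonneg _)
  have hP : ∀ a b, Pair Ω a b → L * ‖a‖ ^ 2 ≤ ‖b‖ ^ 2 := by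
    intro a b hab
    by_cases ha : ‖a‖ = 0
    · rw [ha]; simp
    · have hab' := pair_smul (‖a‖⁻¹) hab
      obtain ⟨w, hw, e1, e2⟩ := hab'
      have h1 : ∫ x, w x ^ 2 = 1 := by
        rw [int_U hw, ← e1, norm_smul, norm_inv, norm_norm, inv_mul_cancel₀ ha, one_pow]
      have h2 : L ≤ ∫ x, ‖gradient w x‖ ^ 2 := csInf_le hQb ⟨w, hw, h1, rfl⟩
      rw [int_G hw, ← e2, norm_smul, norm_inv, norm_norm, mul_pow, inv_pow] at h2
      have h3 : 0 < ‖a‖ ^ 2 := by positivity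
      calc L * ‖a‖ ^ 2 ≤ ((‖a‖ ^ 2)⁻¹ * ‖b‖ ^ 2) * ‖a‖ ^ 2 := mul_le_mul_of_nonneg_right h2 h3.le
        _ = ‖b‖ ^ 2 := by field_simp
  have hPv : Rayl Ω L := by
    intro v hv
    have h := hP _ _ ⟨v, hv, rfl, rfl⟩
    rwa [← int_U hv, ← int_G hv] at h
  -- minimising sequence
  have hex : ∀ k : ℕ, ∃ w, IsTest Ω w ∧ ∫ x, w x ^ 2 = 1 ∧
      ∫ x, ‖gradient w x‖ ^ 2 < L + 1 / ((k : ℝ) + 1) := by
    intro k
    have : sInf Q < L + 1 / ((k : ℝ) + 1) := by
      have : (0:ℝ) < 1 / ((k : ℝ) + 1) := by positivity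
      linarith
    obtain ⟨q, ⟨w, hw, h1, rfl⟩, hq⟩ := exists_lt_of_csInf_lt hQne this
    exact ⟨w, hw, h1, hq⟩
  choose φ hφ hφ1 hφL using hex
  obtain ⟨σ, hσ, hC⟩ := rellich n hn Ω hΩb (L + 2) φ hφ
    (fun k => by rw [hφ1 k]; linarith) (fun k => by
      have h1 := hφL k
      have h2 : 1 / ((k : ℝ) + 1) ≤ 1 := by
        rw [div_le_one (by positivity)]
        have : (0:ℝ) ≤ k := Nat.cast_nonneg k
        linarith
      linarith)
  let a : ℕ → Lp ℝ 2 (volume.restrict Ω) := fun k => (memU (hφ (σ k))).toLp (φ (σ k))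
  let b : ℕ → Lp (EuclideanSpace ℝ (Fin n)) 2 (volume.restrict Ω) :=
    fun k => (memG (hφ (σ k))).toLp (gradient (φ (σ k)))
  have hab : ∀ k, Pair Ω (a k) (b k) := fun k => ⟨_, hφ (σ k), rfl, rfl⟩
  have ha1 : ∀ k, ‖a k‖ = 1 := by
    intro k
    have h1 := int_U (hφ (σ k))
    rw [hφ1] at h1
    have h2 : ‖a k‖ ^ 2 = 1 := h1.symm
    nlinarith [norm_nonneg (a k)]
  have hbL : Tendsto (fun k => ‖b k‖ ^ 2) atTop (𝓝 L) := by
    have h1 : ∀ k, ‖b k‖ ^ 2 = ∫ x, ‖gradient (φ (σ k)) x‖ ^ 2 := fun k => (int_G (hφ (σ k))).symm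
    have h2 : Tendsto (fun k : ℕ => L + 1 / ((σ k : ℝ) + 1)) atTop (𝓝 L) := by
      have := (tendsto_one_div_add_atTop_nhds_zero_nat (𝕜 := ℝ)).comp hσ.tendsto_atTop
      simpa using this.const_add L
    refine tendsto_of_tendsto_of_tendsto_of_le_of_le tendsto_const_nhds h2 (fun k => ?_) (fun k => ?_)
    · show L ≤ ‖b k‖ ^ 2
      rw [h1]; exact csInf_le hQb ⟨_, hφ (σ k), hφ1 _, rfl⟩
    · show ‖b k‖ ^ 2 ≤ L + 1 / ((σ k : ℝ) + 1)
      rw [h1]; exact (hφL _).le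
  have hac : CauchySeq a := by
    rw [Metric.cauchySeq_iff]
    intro ε hε
    obtain ⟨N, hN⟩ := hC (ε ^ 2 / 2) (by positivity)
    refine ⟨N, fun j hj k hk => ?_⟩
    have h1 := hN j hj k hk
    rw [dist_eq_norm]
    have hsub : Pair Ω (a j + (-1 : ℝ) • a k) (b j + (-1 : ℝ) • b k) :=
      pair_add (hab j) (pair_smul _ (hab k))
    have hT : IsTest Ω (φ (σ j) + (-1 : ℝ) • φ (σ k)) := test_add (hφ _) (test_smul _ (hφ _))
    have h2 : a j - a k = (memU hT).toLp (φ (σ j) + (-1 : ℝ) • φ (σ k)) := by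
      rw [MemLp.toLp_add (memU (hφ (σ j))) (memU (test_smul (-1) (hφ (σ k)))),
        MemLp.toLp_const_smul (-1 : ℝ) (memU (hφ (σ k))), sub_eq_add_neg, neg_one_smul]
    have h3 : ‖a j - a k‖ ^ 2 = ∫ x, (φ (σ j) x - φ (σ k) x) ^ 2 := by
      rw [h2, ← int_U hT]
      congr 1; funext x
      simp only [Pi.add_apply, Pi.smul_apply, smul_eq_mul]
      ring
    have h4 : ‖a j - a k‖ ^ 2 < ε ^ 2 := by
      rw [h3]
      have : 0 < ε ^ 2 := by positivity
      linarith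
    exact lt_of_pow_lt_pow_left₀ 2 hε.le h4
  obtain ⟨a', b', hta, htb, hna, hweak⟩ := minimiser (Pair Ω) (fun _ _ _ _ => pair_add)
    (fun t _ _ => pair_smul t) hL0 hP a b hab ha1 hbL hac
  have heig : IsEigenfunction Ω L a' := by
    refine ⟨b', ⟨Lp.memLp a', Lp.memLp b', fun k => φ (σ k), fun k => hφ _, ?_, ?_⟩, ?_, ?_⟩
    · have := (Lp.tendsto_Lp_iff_tendsto_eLpNorm' a a').1 hta
      refine this.congr fun k => ?_
      apply eLpNorm_congr_ae
      filter_upwards [(memU (hφ (σ k))).coeFn_toLp] with x hx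
      simp only [Pi.sub_apply, a, hx]
    · have := (Lp.tendsto_Lp_iff_tendsto_eLpNorm' b b').1 htb
      refine this.congr fun k => ?_
      apply eLpNorm_congr_ae
      filter_upwards [(memG (hφ (σ k))).coeFn_toLp] with x hx
      simp only [Pi.sub_apply, b, hx]
    · intro χ hχ
      have h1 := hweak _ _ ⟨χ, hχ, rfl, rfl⟩
      rw [L2.inner_def, L2.inner_def] at h1
      have e1 : ∫ x in Ω, ⟪b' x, gradient χ x⟫_ℝ =
          ∫ x in Ω, ⟪b' x, ((memG hχ).toLp (gradient χ)) x⟫_ℝ := by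
        refine integral_congr_ae ?_
        filter_upwards [(memG hχ).coeFn_toLp] with x hx
        rw [hx]
      have e2 : ∫ x in Ω, a' x * χ x = ∫ x in Ω, ⟪a' x, ((memU hχ).toLp χ) x⟫_ℝ := by
        refine integral_congr_ae ?_
        filter_upwards [(memU hχ).coeFn_toLp] with x hx
        rw [hx]
        simp [mul_comm]
      rw [e1, e2]
      exact h1
    · intro h
      have h1 : a' = 0 := (Lp.eq_zero_iff_ae_eq_zero).2 h
      rw [h1, norm_zero] at hna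
      exact zero_ne_one hna
  exact ⟨L, a', heig, hPv⟩

/-- The Rayleigh inequality passes to every Dirichlet eigenvalue. -/
lemma rayl_le_eigen {n : ℕ} {Ω : Set (EuclideanSpace ℝ (Fin n))} {L lam : ℝ}
    {u : EuclideanSpace ℝ (Fin n) → ℝ} (hR : Rayl Ω L) (hu : IsEigenfunction Ω lam u) :
    L ≤ lam := by
  obtain ⟨G, hH, hW, hnz⟩ := hu
  have hN := sq_pos_of_ne hH.memU hnz
  have heq := energy_eq hH hW
  obtain ⟨φ, hφ, hφu, hφG⟩ := hH.approx
  have hφm : ∀ k, MemLp (φ k) 2 (volume.restrict Ω) := fun k => (hφ k).memLp _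
  have hAt := int_sq_tendsto hφm hH.memU hφu
  have hBt := int_sq_tendsto (fun k => (hφ k).grad_memLp (volume.restrict Ω)) hH.memG hφG
  have hle := le_of_tendsto_of_tendsto' (hAt.const_mul L) hBt fun k => by
    have h := hR (φ k) (hφ k)
    rw [setInt_eq (hφ k) fun x hx => by
      simp [image_eq_zero_of_notMem_tsupport hx], setInt_eq (hφ k) fun x hx => by
      simp [grad_zero_of_notMem hx]]
    simpa using h
  simp only [Real.norm_eq_abs, sq_abs] at hle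
  rw [heq] at hle
  exact le_of_mul_le_mul_right hle hN

theorem exists_first {n : ℕ} (hn : 0 < n) {Ω : Set (EuclideanSpace ℝ (Fin n))} (hΩ : IsOpen Ω)
    (hΩb : Bornology.IsBounded Ω) (hne : Ω.Nonempty) : ∃ u, IsFirstEigenfunction Ω u := by
  obtain ⟨L, u, hu, hR⟩ := exists_min hn hΩ hΩb hne
  exact ⟨u, L, hu, fun lam' v hv => rayl_le_eigen hR hv⟩

end Pool.Agent.W780.SN
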