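import Pool.Agent.W780.SN.Tools

/-!
Kato inequality: `|u|` is a weak subsolution.
-/

namespace Pool.Agent.W780.SN

open MeasureTheory Set Filter Topology Metric
open scoped ENNReal InnerProductSpace ContDiff

section beta

variable {ε : ℝ}

lemma q_pos (hε : 0 < ε) (s : ℝ) : 0 < √(s ^ 2 + ε ^ 2) := by positivity

noncomputable def be (ε s : ℝ) : ℝ := √(s ^ 2 + ε ^ 2) - ε
noncomputable def bd (ε s : ℝ) : ℝ := s / √(s ^ 2 + ε ^ 2)
noncomputable def bc (ε s : ℝ) : ℝ := ε ^ 2 / √(s ^ 2 + ε ^ 2) ^ 3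

lemma sqrt_smooth (hε : 0 < ε) : ContDiff ℝ ∞ fun s : ℝ => √(s ^ 2 + ε ^ 2) :=
  ContDiff.sqrt (by fun_prop) fun s => by positivity

lemma be_smooth (hε : 0 < ε) : ContDiff ℝ ∞ (be ε) := (sqrt_smooth hε).sub contDiff_const

lemma bd_smooth (hε : 0 < ε) : ContDiff ℝ ∞ (bd ε) :=
  contDiff_id.div (sqrt_smooth hε) fun s => (q_pos hε s).ne'

lemma be_zero (hε : 0 < ε) : be ε 0 = 0 := by
  simp [be, Real.sqrt_sq hε.le]

lemma bd_zero : bd ε 0 = 0 := by simp [bd]

lemma q_deriv (hε : 0 < ε) (s : ℝ) :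
    HasDerivAt (fun s : ℝ => √(s ^ 2 + ε ^ 2)) (s / √(s ^ 2 + ε ^ 2)) s := by
  have h1 : HasDerivAt (fun s : ℝ => s ^ 2 + ε ^ 2) (2 * s) s := by
    have := ((hasDerivAt_id s).pow 2).add_const (ε ^ 2)
    simpa using this
  have h2 := h1.sqrt (by positivity)
  convert h2 using 1
  field_simp

lemma be_deriv (hε : 0 < ε) (s : ℝ) : HasDerivAt (be ε) (bd ε s) s :=
  (q_deriv hε s).sub_const ε

lemma bd_deriv (hε : 0 < ε) (s : ℝ) : HasDerivAt (bd ε) (bc ε s) s := by
  have h : HasDerivAt (fun t : ℝ => t / √(t ^ 2 + ε ^ 2))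
      ((1 * √(s ^ 2 + ε ^ 2) - s * (s / √(s ^ 2 + ε ^ 2))) / √(s ^ 2 + ε ^ 2) ^ 2) s :=
    (hasDerivAt_id' s).div (q_deriv hε s) (q_pos hε s).ne'
  have hq := q_pos hε s
  have hq2 : √(s ^ 2 + ε ^ 2) ^ 2 = s ^ 2 + ε ^ 2 := Real.sq_sqrt (by positivity)
  have e : bc ε s =
      (1 * √(s ^ 2 + ε ^ 2) - s * (s / √(s ^ 2 + ε ^ 2))) / √(s ^ 2 + ε ^ 2) ^ 2 := by
    rw [bc]
    set q := √(s ^ 2 + ε ^ 2)
    rw [div_eq_div_iff (by positivity) (by positivity)]
    have : ε ^ 2 = q ^ 2 - s ^ 2 := by rw [hq2]; ring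
    rw [this]
    field_simp
  rw [e]
  exact h

lemma bd_le (hε : 0 < ε) (s : ℝ) : |bd ε s| ≤ 1 := by
  rw [bd, abs_div, abs_of_pos (q_pos hε s), div_le_one (q_pos hε s)]
  exact Real.abs_le_sqrt (by nlinarith [sq_nonneg ε])

lemma q_ge (hε : 0 < ε) (s : ℝ) : ε ≤ √(s ^ 2 + ε ^ 2) := by
  calc ε = √(ε ^ 2) := (Real.sqrt_sq hε.le).symm
    _ ≤ _ := Real.sqrt_le_sqrt (by nlinarith [sq_nonneg s])

lemma bc_nonneg (s : ℝ) : 0 ≤ bc ε s := by unfold bc; positivity

lemma bc_le (hε : 0 < ε) (s : ℝ) : bc ε s ≤ 1 / ε := by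
  have h := q_ge hε s
  have hq := q_pos hε s
  rw [bc, div_le_div_iff₀ (by positivity) hε, one_mul]
  calc ε ^ 2 * ε = ε ^ 3 := by ring
    _ ≤ _ := pow_le_pow_left₀ hε.le h 3

lemma be_abs (hε : 0 < ε) (s : ℝ) : abs (be ε s - |s|) ≤ ε := by
  have h1 : |s| ≤ √(s ^ 2 + ε ^ 2) := Real.abs_le_sqrt (by nlinarith [sq_nonneg ε])
  have h2 : √(s ^ 2 + ε ^ 2) ≤ |s| + ε := by
    rw [Real.sqrt_le_left (by positivity)]
    nlinarith [sq_abs s, abs_nonneg s]
  rw [be, abs_le]
  constructor <;> linarith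

end beta

section ibp

variable {n : ℕ}

lemma inner_grad (f g : EuclideanSpace ℝ (Fin n) → ℝ) (x : EuclideanSpace ℝ (Fin n)) :
    ⟪gradient f x, gradient g x⟫_ℝ =
      ∑ i : Fin n, fderiv ℝ f x (EuclideanSpace.single i 1) *
        fderiv ℝ g x (EuclideanSpace.single i 1) := by
  rw [← (EuclideanSpace.basisFun (Fin n) ℝ).sum_inner_mul_inner]
  refine Finset.sum_congr rfl fun i _ => ?_
  rw [EuclideanSpace.basisFun_apply, inner_gradient_left, real_inner_comm, inner_gradient_left]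

lemma ibp {Ω : Set (EuclideanSpace ℝ (Fin n))} {f g : EuclideanSpace ℝ (Fin n) → ℝ}
    (hf : IsTest Ω f) {Ω' : Set (EuclideanSpace ℝ (Fin n))} (hg : IsTest Ω' g) :
    ∫ x, ⟪gradient f x, gradient g x⟫_ℝ = -∫ x, f x * lap g x := by
  have hd : ∀ i : Fin n, ContDiff ℝ 1 (fun y => fderiv ℝ g y (EuclideanSpace.single i 1)) :=
    fun i => (hg.smooth.fderiv_right (m := 1) (by norm_cast)).clm_apply contDiff_const
  have hfc : ∀ i : Fin n, Continuous (fun y => fderiv ℝ f y (EuclideanSpace.single i 1)) :=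
    fun i => (hf.smooth.continuous_fderiv (by norm_num)).clm_apply continuous_const
  have hdd : ∀ i : Fin n, Continuous (fun x =>
      fderiv ℝ (fun y => fderiv ℝ g y (EuclideanSpace.single i 1)) x
        (EuclideanSpace.single i 1)) :=
    fun i => ((hd i).continuous_fderiv (by norm_num)).clm_apply continuous_const
  have hfcs : ∀ i : Fin n, HasCompactSupport (fun y => fderiv ℝ f y (EuclideanSpace.single i 1)) :=
    fun i => hf.compact.fderiv_apply ℝ _
  have i1 : ∀ i : Fin n, Integrable (fun x => fderiv ℝ f x (EuclideanSpace.single i 1) *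
      fderiv ℝ g x (EuclideanSpace.single i 1)) := fun i =>
    ((hfc i).mul (hd i).continuous).integrable_of_hasCompactSupport (hfcs i).mul_right
  have i2 : ∀ i : Fin n, Integrable (fun x => f x *
      fderiv ℝ (fun y => fderiv ℝ g y (EuclideanSpace.single i 1)) x
        (EuclideanSpace.single i 1)) := fun i =>
    (hf.cont.mul (hdd i)).integrable_of_hasCompactSupport hf.compact.mul_right
  have i3 : ∀ i : Fin n, Integrable (fun x => f x *
      fderiv ℝ g x (EuclideanSpace.single i 1)) := fun i =>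
    (hf.cont.mul (hd i).continuous).integrable_of_hasCompactSupport hf.compact.mul_right
  simp only [inner_grad, lap, Finset.mul_sum]
  rw [integral_finsetSum _ fun i _ => i1 i, integral_finsetSum _ fun i _ => i2 i,
    ← Finset.sum_neg_distrib]
  refine Finset.sum_congr rfl fun i _ => ?_
  have := integral_mul_fderiv_eq_neg_fderiv_mul_of_integrable (μ := volume)
    (v := (EuclideanSpace.single i (1 : ℝ) : EuclideanSpace ℝ (Fin n)))
    (f := f) (g := fun y => fderiv ℝ g y (EuclideanSpace.single i 1)) (i1 i) (i2 i) (i3 i)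
    (fun x _ => hf.diff x) (fun x _ => (hd i).differentiable (by norm_num) x)
  rw [this, neg_neg]

lemma lap_cont {Ω : Set (EuclideanSpace ℝ (Fin n))} {g : EuclideanSpace ℝ (Fin n) → ℝ}
    (hg : IsTest Ω g) : Continuous (lap g) := by
  unfold lap
  refine continuous_finsetSum _ fun i _ => ?_
  have hd : ContDiff ℝ 1 (fun y => fderiv ℝ g y (EuclideanSpace.single i 1)) :=
    (hg.smooth.fderiv_right (m := 1) (by norm_cast)).clm_apply contDiff_const
  exact (hd.continuous_fderiv (by norm_num)).clm_apply continuous_const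

lemma lap_bdd {Ω : Set (EuclideanSpace ℝ (Fin n))} {g : EuclideanSpace ℝ (Fin n) → ℝ}
    (hg : IsTest Ω g) : ∃ L : ℝ, 0 ≤ L ∧ ∀ x, |lap g x| ≤ L := by
  have hcs : HasCompactSupport (lap g) := by
    refine HasCompactSupport.intro hg.compact fun x hx => ?_
    unfold lap
    refine Finset.sum_eq_zero fun i _ => ?_
    have h1 : (fun y => fderiv ℝ g y (EuclideanSpace.single i 1)) =ᶠ[𝓝 x] fun _ => 0 := by
      have : (tsupport g)ᶜ ∈ 𝓝 x := (isClosed_tsupport g).isOpen_compl.mem_nhds hx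
      filter_upwards [this] with y hy
      have h1 : fderiv ℝ g y = 0 := by
        by_contra hne
        exact hy (support_fderiv_subset ℝ (f := g) hne)
      simp [h1]
    rw [h1.fderiv_eq]; simp
  obtain ⟨L, hL⟩ := hcs.exists_bound_of_continuous (lap_cont hg)
  exact ⟨L, (norm_nonneg _).trans (hL 0), fun x => by rw [← Real.norm_eq_abs]; exact hL x⟩

end ibp

end Pool.Agent.W780.SN
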