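import Pool.Agent.W780.SN.Kato

/-!
Kato inequality: main theorem.
-/

namespace Pool.Agent.W780.SN

open MeasureTheory Set Filter Topology Metric
open scoped ENNReal InnerProductSpace ContDiff

lemma grad_comp {n : ℕ} {f : EuclideanSpace ℝ (Fin n) → ℝ} {b : ℝ → ℝ} {b' : ℝ}
    {x : EuclideanSpace ℝ (Fin n)} (hb : HasDerivAt b b' (f x)) (hf : DifferentiableAt ℝ f x) :
    gradient (fun y => b (f y)) x = b' • gradient f x := by
  have h1 : fderiv ℝ (fun y => b (f y)) x = b' • fderiv ℝ f x :=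
    (hb.comp_hasFDerivAt x hf.hasFDerivAt).fderiv
  simp [gradient, h1]

lemma IsTest.comp_zero {n : ℕ} {Ω : Set (EuclideanSpace ℝ (Fin n))}
    {f : EuclideanSpace ℝ (Fin n) → ℝ} (hf : IsTest Ω f) {b : ℝ → ℝ} (hb : ContDiff ℝ ∞ b)
    (hb0 : b 0 = 0) : IsTest Ω (fun x => b (f x)) := by
  refine ⟨hb.comp hf.smooth, hf.compact.comp_left hb0, ?_⟩
  refine subset_trans (closure_mono ?_) hf.supp
  intro x hx hfx
  exact hx (by simp only [hfx, hb0])

theorem kato_eps {n : ℕ} {Ω : Set (EuclideanSpace ℝ (Fin n))} {lam : ℝ}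
    {u : EuclideanSpace ℝ (Fin n) → ℝ}
    {G : EuclideanSpace ℝ (Fin n) → EuclideanSpace ℝ (Fin n)}
    (hO : IsOpen Ω) (hB : Bornology.IsBounded Ω) (hlam : 0 ≤ lam) (hH : IsH10 Ω u G)
    (hW : WeakEq Ω lam u G) {ψ : EuclideanSpace ℝ (Fin n) → ℝ} (hψ : IsTest univ ψ)
    (hψ0 : ∀ x, 0 ≤ ψ x) {L : ℝ} (hL0 : 0 ≤ L) (hL : ∀ x, |lap ψ x| ≤ L) {ε : ℝ} (hε : 0 < ε) :
    -(∫ x in Ω, |u x| * lap ψ x) ≤
      lam * (∫ x in Ω, |u x| * ψ x) + L * ε * (volume Ω).toReal := by
  obtain ⟨φ, hφ, hφu, hφG⟩ := hH.approx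
  haveI : IsFiniteMeasure (volume.restrict Ω) :=
    ⟨by rw [Measure.restrict_apply_univ]; exact hB.measure_lt_top⟩
  obtain ⟨Mψ, hMψ⟩ := hψ.compact.exists_bound_of_continuous hψ.cont
  have hM0 : 0 ≤ Mψ := (norm_nonneg _).trans (hMψ 0)
  set V := (volume Ω).toReal with hV
  have hV0 : 0 ≤ V := ENNReal.toReal_nonneg
  have hφm : ∀ k, MemLp (φ k) 2 (volume.restrict Ω) := fun k => (hφ k).memLp _
  have hBt : Tendsto (fun k => ∫ y in Ω, ‖gradient (φ k) y‖ ^ 2) atTop
      (𝓝 (∫ y in Ω, ‖G y‖ ^ 2)) :=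
    int_sq_tendsto (fun k => (hφ k).grad_memLp _) hH.memG hφG
  have hδt : Tendsto (fun k => ∫ y in Ω, (φ k y - u y) ^ 2) atTop (𝓝 0) := by
    have h := int_sq_tendsto_zero hφm hH.memU hφu
    simpa only [Real.norm_eq_abs, sq_abs] using h
  have hδ't : Tendsto (fun k => ∫ y in Ω, ‖gradient (φ k) y - G y‖ ^ 2) atTop (𝓝 0) :=
    int_sq_tendsto_zero (fun k => (hφ k).grad_memLp _) hH.memG hφG
  set θ : ℕ → EuclideanSpace ℝ (Fin n) → ℝ := fun k y => ψ y * bd ε (φ k y) with hθdef
  have hbd : ∀ k, IsTest Ω (fun y => bd ε (φ k y)) := fun k =>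
    (hφ k).comp_zero (bd_smooth hε) bd_zero
  have hbe : ∀ k, IsTest Ω (fun y => be ε (φ k y)) := fun k =>
    (hφ k).comp_zero (be_smooth hε) (be_zero hε)
  have hθ : ∀ k, IsTest Ω (θ k) := fun k => (hbd k).mul_smooth hψ.smooth
  have hgθ : ∀ k y, gradient (θ k) y =
      ψ y • (bc ε (φ k y) • gradient (φ k) y) + bd ε (φ k y) • gradient ψ y := by
    intro k y
    rw [hθdef]
    simp only
    rw [grad_mul (hψ.diff y) ((hbd k).diff y),
      grad_comp (bd_deriv hε (φ k y)) ((hφ k).diff y)]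
  have hgbe : ∀ k y, gradient (fun y => be ε (φ k y)) y = bd ε (φ k y) • gradient (φ k) y :=
    fun k y => grad_comp (be_deriv hε (φ k y)) ((hφ k).diff y)
  have hsetΩ : ∀ f : EuclideanSpace ℝ (Fin n) → ℝ, (∀ y, y ∉ Ω → f y = 0) →
      ∫ y in Ω, f y = ∫ y, f y := fun f hf =>
    setIntegral_eq_integral_of_forall_compl_eq_zero fun y hy => hf y hy
  have hφout : ∀ k y, y ∉ Ω → φ k y = 0 := fun k y hy =>
    image_eq_zero_of_notMem_tsupport fun h => hy ((hφ k).supp h)
  have hGout : ∀ k y, y ∉ Ω → gradient (φ k) y = 0 := fun k y hy =>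
    grad_zero_of_notMem fun h => hy ((hφ k).supp h)
  -- main inequality for each k
  have hmain : ∀ k, -(∫ x in Ω, |u x| * lap ψ x) ≤
      lam * (∫ x in Ω, |u x| * ψ x) + (√(∫ y in Ω, ‖gradient (φ k) y - G y‖ ^ 2) *
        √(2 * (∫ y in Ω, ‖gradient ψ y‖ ^ 2) +
          2 * (Mψ / ε) ^ 2 * (∫ y in Ω, ‖gradient (φ k) y‖ ^ 2)) +
        L * (√V * √(∫ y in Ω, (φ k y - u y) ^ 2) + ε * V)) := by
    intro k
    -- step 1
    have s1 : -(∫ y in Ω, be ε (φ k y) * lap ψ y) =
        ∫ y in Ω, ⟪gradient (fun y => be ε (φ k y)) y, gradient ψ y⟫_ℝ := by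
      rw [hsetΩ _ fun y hy => by simp [hφout k y hy, be_zero hε],
        hsetΩ _ fun y hy => by rw [hgbe]; simp [hGout k y hy], ibp (hbe k) hψ]
    have s2 : ∫ y in Ω, ⟪gradient (fun y => be ε (φ k y)) y, gradient ψ y⟫_ℝ ≤
        ∫ y in Ω, ⟪gradient (φ k) y, gradient (θ k) y⟫_ℝ := by
      refine integral_mono (integrable_inner ((hbe k).grad_memLp _) (hψ.grad_memLp _))
        (integrable_inner ((hφ k).grad_memLp _) ((hθ k).grad_memLp _)) fun y => ?_
      simp only
      rw [hgbe, hgθ, inner_add_right, real_inner_smul_left, real_inner_smul_right,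
        real_inner_smul_right, real_inner_smul_right, real_inner_self_eq_norm_sq]
      have h1 : 0 ≤ ψ y * (bc ε (φ k y) * ‖gradient (φ k) y‖ ^ 2) := by
        have := hψ0 y
        have := bc_nonneg (ε := ε) (φ k y)
        positivity
      linarith
    have s3 : ∫ y in Ω, ⟪gradient (φ k) y, gradient (θ k) y⟫_ℝ =
        (∫ y in Ω, ⟪G y, gradient (θ k) y⟫_ℝ) +
          ∫ y in Ω, ⟪gradient (φ k) y - G y, gradient (θ k) y⟫_ℝ := by
      have hd : MemLp (fun y => gradient (φ k) y - G y) 2 (volume.restrict Ω) :=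
        ((hφ k).grad_memLp _).sub hH.memG
      rw [← integral_add (integrable_inner hH.memG ((hθ k).grad_memLp _))
        (integrable_inner hd ((hθ k).grad_memLp _))]
      congr 1; ext y; rw [← inner_add_left]; simp
    have s4 : ∫ y in Ω, ⟪gradient (φ k) y - G y, gradient (θ k) y⟫_ℝ ≤
        √(∫ y in Ω, ‖gradient (φ k) y - G y‖ ^ 2) *
        √(2 * (∫ y in Ω, ‖gradient ψ y‖ ^ 2) +
          2 * (Mψ / ε) ^ 2 * (∫ y in Ω, ‖gradient (φ k) y‖ ^ 2)) := by
      have c1 := cs (μ := volume.restrict Ω) (((hφ k).grad_memLp _).sub hH.memG)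
        ((hθ k).grad_memLp (volume.restrict Ω))
      simp only [Pi.sub_apply] at c1
      refine (le_abs_self _).trans (c1.trans ?_)
      gcongr
      rw [← integral_const_mul, ← integral_const_mul, ← integral_add
        ((integrable_sq (hψ.grad_memLp _)).const_mul _)
        ((integrable_sq ((hφ k).grad_memLp _)).const_mul _)]
      refine integral_mono (integrable_sq ((hθ k).grad_memLp _))
        (((integrable_sq (hψ.grad_memLp _)).const_mul _).add
        ((integrable_sq ((hφ k).grad_memLp _)).const_mul _)) fun y => ?_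
      simp only
      have h2 : ‖gradient (θ k) y‖ ≤ ‖gradient ψ y‖ + (Mψ / ε) * ‖gradient (φ k) y‖ := by
        rw [hgθ, add_comm]
        refine (norm_add_le _ _).trans ?_
        rw [norm_smul, norm_smul, norm_smul, Real.norm_eq_abs, Real.norm_eq_abs,
          Real.norm_eq_abs]
        have h3 := bd_le hε (φ k y)
        have h4 := bc_le hε (φ k y)
        have h5 := bc_nonneg (ε := ε) (φ k y)
        have h6 := hMψ y
        rw [Real.norm_eq_abs] at h6
        rw [abs_of_nonneg h5]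
        have h7 : |ψ y| * (bc ε (φ k y) * ‖gradient (φ k) y‖) ≤
            Mψ * (1 / ε * ‖gradient (φ k) y‖) := by gcongr
        have h8 : |bd ε (φ k y)| * ‖gradient ψ y‖ ≤ 1 * ‖gradient ψ y‖ := by gcongr
        have h9 : Mψ * (1 / ε * ‖gradient (φ k) y‖) = Mψ / ε * ‖gradient (φ k) y‖ := by ring
        linarith
      have h3 : 0 ≤ ‖gradient (θ k) y‖ := norm_nonneg _
      calc ‖gradient (θ k) y‖ ^ 2 ≤ (‖gradient ψ y‖ + (Mψ / ε) * ‖gradient (φ k) y‖) ^ 2 := by
            gcongr
        _ ≤ 2 * ‖gradient ψ y‖ ^ 2 + 2 * (Mψ / ε) ^ 2 * ‖gradient (φ k) y‖ ^ 2 := by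
            nlinarith [sq_nonneg (‖gradient ψ y‖ - (Mψ / ε) * ‖gradient (φ k) y‖)]
    have s5 : ∫ y in Ω, ⟪G y, gradient (θ k) y⟫_ℝ ≤ lam * ∫ x in Ω, |u x| * ψ x := by
      rw [hW (θ k) (hθ k)]
      have i1 : Integrable (fun y => u y * θ k y) (volume.restrict Ω) := by
        have := integrable_inner ((hθ k).memLp (volume.restrict Ω)) hH.memU
        simpa only [RCLike.inner_apply, conj_trivial] using this
      have i2 : Integrable (fun y => |u y| * ψ y) (volume.restrict Ω) := by
        have := integrable_inner (hψ.memLp (volume.restrict Ω)) hH.memU.abs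
        simpa only [RCLike.inner_apply, conj_trivial, Pi.abs_apply] using this
      refine mul_le_mul_of_nonneg_left (integral_mono i1 i2 fun y => ?_) hlam
      simp only [hθdef]
      have h1 := bd_le hε (φ k y)
      have h2 := hψ0 y
      calc u y * (ψ y * bd ε (φ k y)) ≤ |u y * (ψ y * bd ε (φ k y))| := le_abs_self _
        _ = |u y| * (ψ y * |bd ε (φ k y)|) := by
            rw [abs_mul, abs_mul, abs_of_nonneg h2]
        _ ≤ |u y| * (ψ y * 1) := by gcongr
        _ = |u y| * ψ y := by ring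
    -- step 6: replace be(φ) by |u|
    have hlapm : MemLp (lap ψ) ⊤ (volume.restrict Ω) := by
      refine memLp_top_of_bound (lap_cont hψ).aestronglyMeasurable L
        (Eventually.of_forall fun y => by rw [Real.norm_eq_abs]; exact hL y)
    have iu : Integrable (fun y => |u y|) (volume.restrict Ω) :=
      (hH.memU.integrable (by norm_num)).abs
    have ib : Integrable (fun y => be ε (φ k y)) (volume.restrict Ω) :=
      ((hbe k).cont.integrable_of_hasCompactSupport (hbe k).compact).integrableOn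
    have i3 : Integrable (fun y => |u y| * lap ψ y) (volume.restrict Ω) :=
      iu.mul_of_top_left hlapm
    have i4 : Integrable (fun y => be ε (φ k y) * lap ψ y) (volume.restrict Ω) :=
      ib.mul_of_top_left hlapm
    have i5 : Integrable (fun y => |φ k y - u y|) (volume.restrict Ω) :=
      (((hφm k).sub hH.memU).integrable (by norm_num)).abs
    have s6 : -(∫ x in Ω, |u x| * lap ψ x) ≤ -(∫ y in Ω, be ε (φ k y) * lap ψ y) +
        L * (√V * √(∫ y in Ω, (φ k y - u y) ^ 2) + ε * V) := by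
      have h1 : (∫ y in Ω, be ε (φ k y) * lap ψ y) - ∫ x in Ω, |u x| * lap ψ x ≤
          L * ((∫ y in Ω, |φ k y - u y|) + ε * V) := by
        rw [← integral_sub i4 i3]
        have h2 : ∫ _ in Ω, ε = ε * V := by
          rw [setIntegral_const, smul_eq_mul, Measure.real, mul_comm]
        rw [← h2, ← integral_add i5 (integrable_const _), ← integral_const_mul]
        refine integral_mono (i4.sub i3) ((i5.add (integrable_const _)).const_mul _)
          fun y => ?_
        simp only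
        have h3 : be ε (φ k y) * lap ψ y - |u y| * lap ψ y =
            (be ε (φ k y) - |u y|) * lap ψ y := by ring
        rw [h3]
        have h4 : abs (be ε (φ k y) - |u y|) ≤ |φ k y - u y| + ε := by
          have h5 := be_abs hε (φ k y)
          have h6 := abs_abs_sub_abs_le_abs_sub (φ k y) (u y)
          have h7 : be ε (φ k y) - |u y| = (be ε (φ k y) - |φ k y|) + (|φ k y| - |u y|) := by
            ring
          rw [h7]
          refine (abs_add_le _ _).trans ?_
          linarith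
        calc (be ε (φ k y) - |u y|) * lap ψ y
            ≤ abs ((be ε (φ k y) - |u y|) * lap ψ y) := le_abs_self _
          _ = abs (be ε (φ k y) - |u y|) * |lap ψ y| := abs_mul _ _
          _ ≤ (|φ k y - u y| + ε) * L := by
              gcongr
              exact hL y
          _ = L * (|φ k y - u y| + ε) := mul_comm _ _
      have h8 : ∫ y in Ω, |φ k y - u y| ≤ √V * √(∫ y in Ω, (φ k y - u y) ^ 2) := by
        have hd : MemLp (fun y => |φ k y - u y|) 2 (volume.restrict Ω) :=
          ((hφm k).sub hH.memU).abs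
        have h1 : MemLp (fun _ : EuclideanSpace ℝ (Fin n) => (1 : ℝ)) 2
            (volume.restrict Ω) := memLp_const 1
        have hcs := cs_real (μ := volume.restrict Ω) h1 hd
        simp only [one_mul, sq_abs, one_pow] at hcs
        rw [setIntegral_const, smul_eq_mul, mul_one, Measure.real] at hcs
        exact (le_abs_self _).trans hcs
      have h9 : L * ((∫ y in Ω, |φ k y - u y|) + ε * V) ≤
          L * (√V * √(∫ y in Ω, (φ k y - u y) ^ 2) + ε * V) := by gcongr
      linarith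
    linarith
  have hlim : Tendsto (fun k => lam * (∫ x in Ω, |u x| * ψ x) +
      (√(∫ y in Ω, ‖gradient (φ k) y - G y‖ ^ 2) *
        √(2 * (∫ y in Ω, ‖gradient ψ y‖ ^ 2) +
          2 * (Mψ / ε) ^ 2 * (∫ y in Ω, ‖gradient (φ k) y‖ ^ 2)) +
        L * (√V * √(∫ y in Ω, (φ k y - u y) ^ 2) + ε * V))) atTop
      (𝓝 (lam * (∫ x in Ω, |u x| * ψ x) +
      (0 * √(2 * (∫ y in Ω, ‖gradient ψ y‖ ^ 2) +
          2 * (Mψ / ε) ^ 2 * (∫ y in Ω, ‖G y‖ ^ 2)) + L * (√V * 0 + ε * V)))) := by
    have t1 : Tendsto (fun k => √(∫ y in Ω, ‖gradient (φ k) y - G y‖ ^ 2)) atTop (𝓝 0) := by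
      have := hδ't.sqrt
      simpa using this
    have t2 : Tendsto (fun k => √(∫ y in Ω, (φ k y - u y) ^ 2)) atTop (𝓝 0) := by
      have := hδt.sqrt
      simpa using this
    exact ((t1.mul ((hBt.const_mul _).const_add _).sqrt).add
      (((t2.const_mul _).add_const _).const_mul L)).const_add _
  have := ge_of_tendsto' hlim hmain
  refine this.trans (le_of_eq ?_)
  ring

theorem kato : S_Kato := by
  intro n Ω lam u G hO hB hlam hH hW ψ hψ hψ0
  obtain ⟨L, hL0, hL⟩ := lap_bdd hψ
  refine le_of_forall_pos_le_add fun δ hδ => ?_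
  set V := (volume Ω).toReal with hV
  have hV0 : 0 ≤ V := ENNReal.toReal_nonneg
  have := kato_eps hO hB hlam hH hW hψ hψ0 hL0 hL (ε := δ / (L * V + 1)) (by positivity)
  refine this.trans ?_
  gcongr
  rw [← hV]
  have h1 : 0 ≤ L * V := by positivity
  calc L * (δ / (L * V + 1)) * V = δ * (L * V / (L * V + 1)) := by ring
    _ ≤ δ * 1 := by
        gcongr
        rw [div_le_one (by positivity)]
        linarith
    _ = δ := mul_one _

end Pool.Agent.W780.SN
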