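import Pool.Agent.W780.SN.Final
import Pool.Agent.W780.SN.Kato2
import Pool.Agent.W174.SN.Radial
import Pool.Agent.W174.SN.Polar
import Pool.Agent.W174.SN.Lam
import Pool.Agent.W780.SN.FirstC
import Pool.Agent.W64.SN.Compet
import Pool.Agent.W177.SN.Kernel

/-!
The unconditional sup-norm estimate.
-/

namespace Pool.Agent.W780.SN

open MeasureTheory Set Filter Topology Metric
open scoped ENNReal InnerProductSpace ContDiff

theorem supNorm_main (n : ℕ) (hn : 0 < n) :
    ∃ C : ℝ, 0 < C ∧ ∀ Ω : Set (EuclideanSpace ℝ (Fin n)), IsOpen Ω → Convex ℝ Ω →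
      Bornology.IsBounded Ω → Ω.Nonempty → ∀ u, IsFirstEigenfunction Ω u →
      ENNReal.ofReal (inradius Ω ^ ((n : ℝ) / 2)) * eLpNorm u ⊤ (volume.restrict Ω) ≤
        ENNReal.ofReal (C * (inradius Ω / diam Ω) ^ ((1 : ℝ) / 6)) *
          eLpNorm u 2 (volume.restrict Ω) :=
  supNorm Pool.Agent.W174.SN.radial (Pool.Agent.W64.SN.compet Pool.Agent.W174.SN.polar)
    Pool.Agent.W174.SN.lamUpper kato Pool.Agent.W177.SN.kernel P174.first n hn

end Pool.Agent.W780.SN
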