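import Pool.Agent.W174.SN.Trans

namespace Pool.Agent.W780.SN.P174

open MeasureTheory Set Filter Topology Metric
open scoped ENNReal InnerProductSpace ContDiff
open Pool.Agent.W780.SN

theorem sq_integral_le {α : Type*} [MeasurableSpace α] {μ : Measure α} [IsFiniteMeasure μ]
    {f : α → ℝ} (hf : Integrable f μ) (hf2 : Integrable (fun x => f x ^ 2) μ)
    (hμ : 0 < μ.real univ) : (∫ x, f x ∂μ) ^ 2 ≤ μ.real univ * ∫ x, f x ^ 2 ∂μ := by
  set b := μ.real univ
  set I := ∫ x, f x ∂μ
  have h : 0 ≤ ∫ x, (f x - I / b) ^ 2 ∂μ := integral_nonneg fun x => sq_nonneg _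
  have e : ∫ x, (f x - I / b) ^ 2 ∂μ = ∫ x, f x ^ 2 ∂μ - 2 * (I / b) * I + (I / b) ^ 2 * b := by
    have h1 : ∀ x, (f x - I / b) ^ 2 = f x ^ 2 - 2 * (I / b) * f x + (I / b) ^ 2 := by
      intro x; ring
    simp_rw [h1]
    have i1 : Integrable (fun x => f x ^ 2 - 2 * (I / b) * f x) μ := hf2.sub (hf.const_mul _)
    rw [integral_add i1 (integrable_const _),
      integral_sub hf2 (hf.const_mul _), integral_const_mul]
    simp [b, I, mul_comm]
  rw [e] at h
  have : ∫ x, f x ^ 2 ∂μ - 2 * (I / b) * I + (I / b) ^ 2 * b = ∫ x, f x ^ 2 ∂μ - I ^ 2 / b := by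
    field_simp
    ring
  rw [this, sub_nonneg, div_le_iff₀ hμ] at h
  linarith

variable {n : ℕ}


theorem keyP {Ω : Set (EuclideanSpace ℝ (Fin n))} {ψ : EuclideanSpace ℝ (Fin n) → ℝ}
    (hψ : IsTest univ ψ) (h0 : ∀ x, x ∉ Ω → ψ x = 0) {h R m : ℝ} (hh : 0 < h)
    (t : Finset (EuclideanSpace ℝ (Fin n))) (hcov : Ω ⊆ ⋃ c ∈ t, ball c h)
    (hR : Ω ⊆ ball 0 R) (hm : ∀ c ∈ t, |∫ y in ball c h, ψ y| ≤ m) :
    ∫ x, ψ x ^ 2 ≤ 2 * 2 ^ n * (2 * h) ^ 2 * (∫ x, ‖gradient ψ x‖ ^ 2) +
      2 * (m / volume.real (ball (0 : EuclideanSpace ℝ (Fin n)) h)) ^ 2 *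
        volume.real (ball (0 : EuclideanSpace ℝ (Fin n)) R) := by
  set b := volume.real (ball (0 : (EuclideanSpace ℝ (Fin n))) h) with hb
  have hbpos : 0 < b := by
    rw [hb, measureReal_def]
    exact ENNReal.toReal_pos (measure_ball_pos _ _ hh).ne' measure_ball_lt_top.ne
  have hbc : ∀ c : (EuclideanSpace ℝ (Fin n)), volume.real (ball c h) = b := by
    intro c
    rw [hb, measureReal_def, measureReal_def, Measure.addHaar_ball_center]
  have hψc : Continuous ψ := hψ.smooth.continuous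
  set D := ∫ x, ‖gradient ψ x‖ ^ 2 with hD
  have hD0 : 0 ≤ D := integral_nonneg fun x => sq_nonneg _
  -- the defect
  let k : (EuclideanSpace ℝ (Fin n)) → (EuclideanSpace ℝ (Fin n)) → ℝ := fun x z => (ψ (x + z) - ψ x) ^ 2
  have hkc : Continuous (fun p : (EuclideanSpace ℝ (Fin n)) × (EuclideanSpace ℝ (Fin n)) => k p.1 p.2) := by
    simp only [k]; fun_prop
  have hkint : ∀ x, IntegrableOn (k x) (ball (0:(EuclideanSpace ℝ (Fin n))) (2 * h)) := by
    intro x
    have : Continuous (k x) := by simp only [k]; fun_prop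
    exact (this.continuousOn.integrableOn_compact (isCompact_closedBall (0:(EuclideanSpace ℝ (Fin n))) (2 * h))).mono_set
      ball_subset_closedBall
  have hpt : ∀ x, ψ x ^ 2 ≤ 2 / b * (∫ z in ball (0:(EuclideanSpace ℝ (Fin n))) (2 * h), k x z) + 2 * (m / b) ^ 2 := by
    intro x
    have hG : 0 ≤ ∫ z in ball (0:(EuclideanSpace ℝ (Fin n))) (2 * h), k x z := integral_nonneg fun z => sq_nonneg _
    by_cases hx : x ∈ Ω
    · obtain ⟨c, hc, hxc⟩ : ∃ c ∈ t, x ∈ ball c h := by simpa using hcov hx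
      have hi1 : ∀ f : (EuclideanSpace ℝ (Fin n)) → ℝ, Continuous f → IntegrableOn f (ball c h) := fun f hf =>
        (hf.continuousOn.integrableOn_compact (isCompact_closedBall c h)).mono_set
          ball_subset_closedBall
      have e1 : ∫ y in ball c h, (ψ y - ψ x) = (∫ y in ball c h, ψ y) - b * ψ x := by
        rw [integral_sub (hi1 _ hψc) (hi1 _ continuous_const)]
        simp [hbc c]
      have hfm : IsFiniteMeasure (volume.restrict (ball c h)) :=
        ⟨by simpa using measure_ball_lt_top⟩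
      have hcs := sq_integral_le (μ := volume.restrict (ball c h)) (f := fun y => ψ y - ψ x)
        (hi1 _ (by fun_prop)) (hi1 _ (by fun_prop)) (by
          rw [measureReal_restrict_apply_univ, hbc]; exact hbpos)
      rw [measureReal_restrict_apply_univ, hbc, e1] at hcs
      have e2 : ∫ y in ball c h, (ψ y - ψ x) ^ 2 ≤ ∫ z in ball (0:(EuclideanSpace ℝ (Fin n))) (2 * h), k x z := by
        have hsub : ball c h ⊆ ball x (2 * h) := by
          intro y hy
          rw [mem_ball] at hy hxc ⊢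
          have := dist_triangle y c x
          rw [dist_comm c x] at this
          linarith
        have hi2 : IntegrableOn (fun y => (ψ y - ψ x) ^ 2) (ball x (2 * h)) := by
          have : Continuous (fun y => (ψ y - ψ x) ^ 2) := by fun_prop
          exact (this.continuousOn.integrableOn_compact (isCompact_closedBall x (2 * h))).mono_set
            ball_subset_closedBall
        refine (setIntegral_mono_set hi2 (Eventually.of_forall fun y => sq_nonneg _)
          (Eventually.of_forall hsub)).trans (le_of_eq ?_)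
        rw [← integral_indicator measurableSet_ball, ← integral_indicator measurableSet_ball,
          ← integral_add_left_eq_self _ x]
        congr 1; funext z
        have : x + z ∈ ball x (2 * h) ↔ z ∈ ball (0:(EuclideanSpace ℝ (Fin n))) (2 * h) := by simp
        by_cases hz : z ∈ ball (0:(EuclideanSpace ℝ (Fin n))) (2 * h)
        · rw [indicator_of_mem (this.2 hz), indicator_of_mem hz]
        · rw [indicator_of_notMem (fun h => hz (this.1 h)), indicator_of_notMem hz]
      have hmc := hm c hc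
      set I := ∫ y in ball c h, ψ y
      set Gx := ∫ z in ball (0:(EuclideanSpace ℝ (Fin n))) (2 * h), k x z
      have hI : I ^ 2 ≤ m ^ 2 := by
        rw [← sq_abs]; exact pow_le_pow_left₀ (abs_nonneg _) hmc 2
      have h3 : (b * ψ x) ^ 2 ≤ 2 * (b * Gx) + 2 * m ^ 2 := by
        have h4 : (I - b * ψ x) ^ 2 ≤ b * Gx :=
          hcs.trans (mul_le_mul_of_nonneg_left e2 hbpos.le)
        nlinarith [sq_nonneg (b * ψ x - 2 * I), sq_nonneg (2 * I - b * ψ x)]
      have h5 : ψ x ^ 2 = (b * ψ x) ^ 2 / b ^ 2 := by field_simp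
      rw [h5]
      have h6 : 2 / b * Gx + 2 * (m / b) ^ 2 = (2 * (b * Gx) + 2 * m ^ 2) / b ^ 2 := by
        field_simp
      rw [h6]
      exact div_le_div_of_nonneg_right h3 (by positivity)
    · rw [h0 x hx]
      have : 0 ≤ 2 / b * (∫ z in ball (0:(EuclideanSpace ℝ (Fin n))) (2 * h), k x z) + 2 * (m / b) ^ 2 := by positivity
      simpa using this
  -- integrate
  have hkmeas : Measurable (fun p : (EuclideanSpace ℝ (Fin n)) × (EuclideanSpace ℝ (Fin n)) => ENNReal.ofReal (k p.1 p.2)) :=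
    ENNReal.measurable_ofReal.comp hkc.measurable
  have hGl : ∀ x, ENNReal.ofReal (∫ z in ball (0:(EuclideanSpace ℝ (Fin n))) (2 * h), k x z) =
      ∫⁻ z in ball (0:(EuclideanSpace ℝ (Fin n))) (2 * h), ENNReal.ofReal (k x z) := fun x =>
    ofReal_integral_eq_lintegral_ofReal (hkint x) (Eventually.of_forall fun z => sq_nonneg _)
  have htr : ∀ z ∈ ball (0:(EuclideanSpace ℝ (Fin n))) (2 * h), ∫⁻ x, ENNReal.ofReal (k x z) ≤
      ENNReal.ofReal ((2 * h) ^ 2 * D) := by
    intro z hz
    have hz' : ‖z‖ < 2 * h := by simpa using hz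
    have hki : Integrable (fun x => k x z) := by
      have hc : Continuous (fun x => k x z) := by simp only [k]; fun_prop
      refine hc.integrable_of_hasCompactSupport ?_
      have h1 : HasCompactSupport (fun x => ψ (x + z)) := by
        have := hψ.compact.comp_homeomorph (Homeomorph.addRight z)
        exact this
      exact (h1.sub hψ.compact).comp_left (g := fun s : ℝ => s ^ 2) (by simp)
    rw [← ofReal_integral_eq_lintegral_ofReal hki (Eventually.of_forall fun z => sq_nonneg _)]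
    refine ENNReal.ofReal_le_ofReal ((Pool.Agent.W174.SN.trans n ψ hψ z).trans ?_)
    exact mul_le_mul_of_nonneg_right (pow_le_pow_left₀ (norm_nonneg _) hz'.le 2) hD0
  have hV : volume (ball (0:(EuclideanSpace ℝ (Fin n))) (2 * h)) = 2 ^ n * volume (ball (0:(EuclideanSpace ℝ (Fin n))) h) := by
    have := Measure.addHaar_ball_mul_of_pos (volume : Measure (EuclideanSpace ℝ (Fin n))) (0:(EuclideanSpace ℝ (Fin n))) (r := 2) (by norm_num) h
    rw [this]
    simp
  have hG2 : ∫⁻ x, ∫⁻ z in ball (0:(EuclideanSpace ℝ (Fin n))) (2 * h), ENNReal.ofReal (k x z) ≤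
      ENNReal.ofReal ((2 * h) ^ 2 * D) * (2 ^ n * volume (ball (0:(EuclideanSpace ℝ (Fin n))) h)) := by
    rw [lintegral_lintegral_swap hkmeas.aemeasurable]
    calc ∫⁻ z in ball (0:(EuclideanSpace ℝ (Fin n))) (2 * h), ∫⁻ x, ENNReal.ofReal (k x z)
        ≤ ∫⁻ z in ball (0:(EuclideanSpace ℝ (Fin n))) (2 * h), ENNReal.ofReal ((2 * h) ^ 2 * D) :=
          setLIntegral_mono measurable_const htr
      _ = _ := by rw [setLIntegral_const, hV]
  have hfin : ENNReal.ofReal (∫ x, ψ x ^ 2) ≤ ENNReal.ofReal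
      (2 / b * ((2 * h) ^ 2 * D * (2 ^ n * b)) + 2 * (m / b) ^ 2 * volume.real (ball (0:(EuclideanSpace ℝ (Fin n))) R)) := by
    have hcc : Continuous (fun x => ψ x ^ 2) := by fun_prop
    have hi : Integrable (fun x => ψ x ^ 2) := hcc.integrable_of_hasCompactSupport
      (hψ.compact.comp_left (g := fun s : ℝ => s ^ 2) (by simp))
    rw [ofReal_integral_eq_lintegral_ofReal hi (Eventually.of_forall fun z => sq_nonneg _)]
    calc ∫⁻ x, ENNReal.ofReal (ψ x ^ 2)
        = ∫⁻ x in ball (0:(EuclideanSpace ℝ (Fin n))) R, ENNReal.ofReal (ψ x ^ 2) := by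
          rw [← lintegral_indicator measurableSet_ball]
          congr 1; funext x
          by_cases hx : x ∈ ball (0:(EuclideanSpace ℝ (Fin n))) R
          · rw [indicator_of_mem hx]
          · rw [indicator_of_notMem hx, h0 x (fun h => hx (hR h))]; simp
      _ ≤ ∫⁻ x in ball (0:(EuclideanSpace ℝ (Fin n))) R, (ENNReal.ofReal (2 / b) *
            (∫⁻ z in ball (0:(EuclideanSpace ℝ (Fin n))) (2 * h), ENNReal.ofReal (k x z)) +
              ENNReal.ofReal (2 * (m / b) ^ 2)) := by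
          refine lintegral_mono fun x => ?_
          rw [← hGl, ← ENNReal.ofReal_mul (by positivity), ← ENNReal.ofReal_add ?_ (by positivity)]
          · exact ENNReal.ofReal_le_ofReal (hpt x)
          · have : 0 ≤ ∫ z in ball (0:(EuclideanSpace ℝ (Fin n))) (2 * h), k x z := integral_nonneg fun z => sq_nonneg _
            positivity
      _ = ENNReal.ofReal (2 / b) * (∫⁻ x in ball (0:(EuclideanSpace ℝ (Fin n))) R, ∫⁻ z in ball (0:(EuclideanSpace ℝ (Fin n))) (2 * h),
            ENNReal.ofReal (k x z)) + ENNReal.ofReal (2 * (m / b) ^ 2) * volume (ball (0:(EuclideanSpace ℝ (Fin n))) R) := by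
          rw [lintegral_add_right _ measurable_const, setLIntegral_const,
            lintegral_const_mul]
          exact hkmeas.lintegral_prod_right'
      _ ≤ ENNReal.ofReal (2 / b) * (ENNReal.ofReal ((2 * h) ^ 2 * D) *
            (2 ^ n * volume (ball (0:(EuclideanSpace ℝ (Fin n))) h))) +
              ENNReal.ofReal (2 * (m / b) ^ 2) * volume (ball (0:(EuclideanSpace ℝ (Fin n))) R) := by
          gcongr
          exact (setLIntegral_le_lintegral _ _).trans hG2
      _ = _ := by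
          have v1 : volume (ball (0:(EuclideanSpace ℝ (Fin n))) h) = ENNReal.ofReal b := by
            rw [hb, measureReal_def, ENNReal.ofReal_toReal measure_ball_lt_top.ne]
          have v2 : volume (ball (0:(EuclideanSpace ℝ (Fin n))) R) = ENNReal.ofReal (volume.real (ball (0:(EuclideanSpace ℝ (Fin n))) R)) := by
            rw [measureReal_def, ENNReal.ofReal_toReal measure_ball_lt_top.ne]
          have v3 : (2:ℝ≥0∞) ^ n = ENNReal.ofReal (2 ^ n) := by
            rw [ENNReal.ofReal_pow (by norm_num)]; simp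
          rw [v1, v2, v3, ← ENNReal.ofReal_mul (by positivity), ← ENNReal.ofReal_mul (by positivity),
            ← ENNReal.ofReal_mul (by positivity), ← ENNReal.ofReal_mul (by positivity),
            ← ENNReal.ofReal_add (by positivity) (by positivity)]
  have hfin2 := (ENNReal.ofReal_le_ofReal_iff (by positivity)).1 hfin
  refine hfin2.trans (le_of_eq ?_)
  field_simp

theorem grad_continuous {φ : (EuclideanSpace ℝ (Fin n)) → ℝ} (hφ : ContDiff ℝ ∞ φ) : Continuous (gradient φ) := by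
  have hdc : Continuous (fun x => fderiv ℝ φ x) := hφ.continuous_fderiv (by simp)
  have : gradient φ = fun x => (InnerProductSpace.toDual ℝ (EuclideanSpace ℝ (Fin n))).symm (fderiv ℝ φ x) := rfl
  rw [this]
  exact (LinearIsometryEquiv.continuous _).comp hdc

theorem grad_compact {φ : (EuclideanSpace ℝ (Fin n)) → ℝ} (hφ : HasCompactSupport φ) : HasCompactSupport (gradient φ) := by
  have h1 : HasCompactSupport (fderiv ℝ φ) := hφ.fderiv (𝕜 := ℝ)
  exact h1.comp_left (g := fun L => (InnerProductSpace.toDual ℝ (EuclideanSpace ℝ (Fin n))).symm L) (by simp)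

theorem sq_int {φ : (EuclideanSpace ℝ (Fin n)) → ℝ} {Ω : Set (EuclideanSpace ℝ (Fin n))} (hφ : IsTest Ω φ) : Integrable (fun x => φ x ^ 2) := by
  have hcc : Continuous (fun x => φ x ^ 2) := hφ.smooth.continuous.pow 2
  exact hcc.integrable_of_hasCompactSupport
      (hφ.compact.comp_left (g := fun s : ℝ => s ^ 2) (by simp))

theorem grad_sq_int {φ : (EuclideanSpace ℝ (Fin n)) → ℝ} {Ω : Set (EuclideanSpace ℝ (Fin n))} (hφ : IsTest Ω φ) :
    Integrable (fun x => ‖gradient φ x‖ ^ 2) := by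
  have hcc : Continuous (fun x => ‖gradient φ x‖ ^ 2) := (grad_continuous hφ.smooth).norm.pow 2
  exact hcc.integrable_of_hasCompactSupport
      ((grad_compact hφ.compact).comp_left (g := fun s : (EuclideanSpace ℝ (Fin n)) => ‖s‖ ^ 2) (by simp))

theorem test_sub {φ χ : (EuclideanSpace ℝ (Fin n)) → ℝ} {Ω : Set (EuclideanSpace ℝ (Fin n))} (hφ : IsTest Ω φ) (hχ : IsTest Ω χ) :
    IsTest univ (fun x => φ x - χ x) :=
  ⟨hφ.smooth.sub hχ.smooth, hφ.compact.sub hχ.compact, subset_univ _⟩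

theorem grad_sub {φ χ : (EuclideanSpace ℝ (Fin n)) → ℝ} {Ω : Set (EuclideanSpace ℝ (Fin n))} (hφ : IsTest Ω φ) (hχ : IsTest Ω χ) (x : (EuclideanSpace ℝ (Fin n))) :
    gradient (fun x => φ x - χ x) x = gradient φ x - gradient χ x := by
  unfold gradient
  rw [fderiv_fun_sub (hφ.smooth.differentiable (by simp) x) (hχ.smooth.differentiable (by simp) x),
    map_sub]

theorem grad_sub_le {φ χ : (EuclideanSpace ℝ (Fin n)) → ℝ} {Ω : Set (EuclideanSpace ℝ (Fin n))} (hφ : IsTest Ω φ) (hχ : IsTest Ω χ) :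
    ∫ x, ‖gradient (fun x => φ x - χ x) x‖ ^ 2 ≤
      2 * (∫ x, ‖gradient φ x‖ ^ 2) + 2 * ∫ x, ‖gradient χ x‖ ^ 2 := by
  rw [← integral_const_mul, ← integral_const_mul,
    ← integral_add ((grad_sq_int hφ).const_mul 2) ((grad_sq_int hχ).const_mul 2)]
  refine integral_mono (grad_sq_int (test_sub hφ hχ))
    (((grad_sq_int hφ).const_mul 2).add ((grad_sq_int hχ).const_mul 2)) fun x => ?_
  show ‖gradient (fun x => φ x - χ x) x‖ ^ 2 ≤ 2 * ‖gradient φ x‖ ^ 2 + 2 * ‖gradient χ x‖ ^ 2
  rw [grad_sub hφ hχ]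
  have h1 := norm_sub_le (gradient φ x) (gradient χ x)
  have h2 := norm_nonneg (gradient φ x - gradient χ x)
  nlinarith [sq_nonneg (‖gradient φ x‖ - ‖gradient χ x‖)]

theorem test_zero {φ : (EuclideanSpace ℝ (Fin n)) → ℝ} {Ω : Set (EuclideanSpace ℝ (Fin n))} (hφ : IsTest Ω φ) {x : (EuclideanSpace ℝ (Fin n))} (hx : x ∉ Ω) : φ x = 0 :=
  image_eq_zero_of_notMem_tsupport (fun h => hx (hφ.supp h))

theorem rellich : S_Rellich := by
  intro n hn Ω hΩ M φ hφ hM hMg
  have hM0 : 0 ≤ M := (integral_nonneg fun x => sq_nonneg _).trans (hM 0)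
  obtain ⟨R, hR⟩ := hΩ.subset_ball (0 : EuclideanSpace ℝ (Fin n))
  have hcov : ∀ m : ℕ, ∃ t : Finset (EuclideanSpace ℝ (Fin n)),
      Ω ⊆ ⋃ c ∈ t, ball c (1 / ((m : ℝ) + 1)) := by
    intro m
    obtain ⟨t, -, ht, hc⟩ := hΩ.isCompact_closure.finite_cover_balls
      (show (0:ℝ) < 1 / ((m : ℝ) + 1) by positivity)
    refine ⟨ht.toFinset, subset_closure.trans ?_⟩
    simpa using hc
  choose t ht using hcov
  let r : ℕ → ℝ := fun m => 1 / ((m : ℝ) + 1)
  have hr : ∀ m, 0 < r m := fun m => by simp only [r]; positivity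
  let C : ℕ → ℝ := fun m => volume.real (ball (0 : EuclideanSpace ℝ (Fin n)) (r m)) + M
  let u : ℕ → (m : ℕ) → (t m) → ℝ := fun k m c => ∫ y in ball c.1 (r m), φ k y
  have hint : ∀ k (c : EuclideanSpace ℝ (Fin n)) (s : ℝ), IntegrableOn (φ k) (ball c s) :=
    fun k c s => ((hφ k).smooth.continuous.integrable_of_hasCompactSupport (hφ k).compact).integrableOn
  have hu : ∀ k m c, u k m c ∈ Icc (-(C m)) (C m) := by
    intro k m c
    rw [mem_Icc, ← abs_le]
    have h1 : |u k m c| ≤ ∫ y in ball c.1 (r m), |φ k y| := abs_integral_le_integral_abs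
    have h2 : ∫ y in ball c.1 (r m), |φ k y| ≤ ∫ y in ball c.1 (r m), (1 + φ k y ^ 2) := by
      have i1 : IntegrableOn (fun _ : EuclideanSpace ℝ (Fin n) => (1:ℝ)) (ball c.1 (r m)) :=
        integrableOn_const measure_ball_lt_top.ne
      refine integral_mono (hint k c.1 (r m)).abs (i1.add (sq_int (hφ k)).integrableOn) fun y => ?_
      show |φ k y| ≤ 1 + φ k y ^ 2
      rw [← sq_abs]
      nlinarith [sq_nonneg (|φ k y| - 1)]
    have h3 : ∫ y in ball c.1 (r m), (1 + φ k y ^ 2) ≤ C m := by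
      have i1 : IntegrableOn (fun _ : EuclideanSpace ℝ (Fin n) => (1:ℝ)) (ball c.1 (r m)) :=
        integrableOn_const measure_ball_lt_top.ne
      rw [integral_add i1 (sq_int (hφ k)).integrableOn]
      have h4 : ∫ y in ball c.1 (r m), φ k y ^ 2 ≤ M :=
        (setIntegral_le_integral (sq_int (hφ k)) (Eventually.of_forall fun x => sq_nonneg _)).trans
          (hM k)
      have h5 : ∫ _ in ball c.1 (r m), (1:ℝ) = volume.real (ball (0 : EuclideanSpace ℝ (Fin n)) (r m)) := by
        simp [measureReal_def, Measure.addHaar_ball_center]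
      rw [h5]
      simp only [C]
      linarith
    exact h1.trans (h2.trans h3)
  have hK : IsCompact (Set.pi univ fun m : ℕ => Set.pi univ fun _ : t m => Icc (-(C m)) (C m)) :=
    isCompact_univ_pi fun m => isCompact_univ_pi fun _ => isCompact_Icc
  obtain ⟨a, -, σ, hσ, hlim⟩ := hK.tendsto_subseq (x := u)
    (fun k m _ c _ => hu k m c)
  refine ⟨σ, hσ, fun ε hε => ?_⟩
  -- choice of the scale
  obtain ⟨m, hm⟩ : ∃ m : ℕ, 2 * 2 ^ n * (2 * r m) ^ 2 * (4 * M) ≤ ε / 2 := by
    have h1 : Tendsto (fun m : ℕ => 2 * 2 ^ n * (2 * r m) ^ 2 * (4 * M)) atTop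
        (𝓝 (2 * 2 ^ n * (2 * 0) ^ 2 * (4 * M))) := by
      have := tendsto_one_div_add_atTop_nhds_zero_nat (𝕜 := ℝ)
      exact (((this.const_mul 2).pow 2).const_mul _).mul_const _
    have h2 : 2 * 2 ^ n * (2 * (0:ℝ)) ^ 2 * (4 * M) < ε / 2 := by
      have : 2 * 2 ^ n * (2 * (0:ℝ)) ^ 2 * (4 * M) = 0 := by ring
      rw [this]; positivity
    obtain ⟨m, hm⟩ := (h1.eventually (gt_mem_nhds h2)).exists
    exact ⟨m, hm.le⟩
  set b := volume.real (ball (0 : EuclideanSpace ℝ (Fin n)) (r m)) with hb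
  have hbpos : 0 < b := by
    rw [hb, measureReal_def]
    exact ENNReal.toReal_pos (measure_ball_pos _ _ (hr m)).ne' measure_ball_lt_top.ne
  set V := volume.real (ball (0 : EuclideanSpace ℝ (Fin n)) R) with hV
  have hV0 : 0 ≤ V := measureReal_nonneg
  let η : ℝ := b * Real.sqrt (ε / (4 * (V + 1)))
  have hη : 0 < η := by simp only [η]; positivity
  have hη2 : 2 * (η / b) ^ 2 * V ≤ ε / 2 := by
    have : η / b = Real.sqrt (ε / (4 * (V + 1))) := by
      simp only [η]; field_simp
    rw [this, Real.sq_sqrt (by positivity)]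
    have h1 : 2 * (ε / (4 * (V + 1))) * V = ε / 2 * (V / (V + 1)) := by field_simp; ring
    rw [h1]
    have h2 : V / (V + 1) ≤ 1 := by rw [div_le_one (by positivity)]; linarith
    nlinarith
  have hev : ∀ᶠ j in atTop, ∀ c : t m, |u (σ j) m c - a m c| < η / 2 := by
    rw [eventually_all]
    intro c
    have h1 := (tendsto_pi_nhds.1 (tendsto_pi_nhds.1 hlim m)) c
    have h2 := Metric.tendsto_nhds.1 h1 (η / 2) (by positivity)
    filter_upwards [h2] with j hj
    exact hj
  obtain ⟨N, hN⟩ := eventually_atTop.1 hev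
  refine ⟨N, fun j hj k hk => ?_⟩
  have hkey := keyP (n := n) (Ω := Ω) (ψ := fun x => φ (σ j) x - φ (σ k) x)
    (test_sub (hφ _) (hφ _)) (fun x hx => by
      simp only [test_zero (hφ (σ j)) hx, test_zero (hφ (σ k)) hx, sub_zero]) (h := r m) (R := R)
    (m := η) (hr m) (t m) (ht m) hR (by
      intro c hc
      have e : ∫ y in ball c (r m), (φ (σ j) y - φ (σ k) y) = u (σ j) m ⟨c, hc⟩ - u (σ k) m ⟨c, hc⟩ :=
        integral_sub (hint _ _ _) (hint _ _ _)
      rw [e]
      have h1 := abs_lt.1 (hN j hj ⟨c, hc⟩)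
      have h2 := abs_lt.1 (hN k hk ⟨c, hc⟩)
      rw [abs_le]
      constructor <;> linarith [h1.1, h1.2, h2.1, h2.2])
  have hg : ∫ x, ‖gradient (fun x => φ (σ j) x - φ (σ k) x) x‖ ^ 2 ≤ 4 * M := by
    have := grad_sub_le (hφ (σ j)) (hφ (σ k))
    linarith [hMg (σ j), hMg (σ k)]
  have h1 : 2 * 2 ^ n * (2 * r m) ^ 2 *
      (∫ x, ‖gradient (fun x => φ (σ j) x - φ (σ k) x) x‖ ^ 2) ≤
      2 * 2 ^ n * (2 * r m) ^ 2 * (4 * M) := mul_le_mul_of_nonneg_left hg (by positivity)
  linarith

end Pool.Agent.W780.SN.P174
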