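import Pool.Agent.W780.SN.Cut

/-!
Energy argument: mass of the eigenfunction in a ball far from the centre of dilation.
-/

namespace Pool.Agent.W780.SN

open MeasureTheory Set Filter Topology Metric
open scoped ENNReal InnerProductSpace ContDiff

variable {n : ℕ}

lemma radial_sq_le (v w : EuclideanSpace ℝ (Fin n)) :
    (⟪v, w⟫_ℝ / ‖w‖) ^ 2 ≤ ‖v‖ ^ 2 := by
  rw [← sq_abs]
  refine pow_le_pow_left₀ (abs_nonneg _) ?_ 2
  rw [abs_div, abs_norm]
  refine div_le_of_le_mul₀ (norm_nonneg _) (norm_nonneg _) ?_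
  exact abs_real_inner_le_norm v w

lemma radial_integrable {Ω : Set (EuclideanSpace ℝ (Fin n))}
    {g : EuclideanSpace ℝ (Fin n) → ℝ} (hg : IsTest Ω g) (y0 : EuclideanSpace ℝ (Fin n)) :
    Integrable (fun y => (⟪gradient g y, y - y0⟫_ℝ / ‖y - y0‖) ^ 2) := by
  have h1 : Integrable (fun y => ‖gradient g y‖ ^ 2) := integrable_sq (hg.grad_memLp volume)
  refine h1.mono' ?_ (Eventually.of_forall fun y => ?_)
  · refine AEStronglyMeasurable.pow ?_ 2
    have ha : Continuous fun y : EuclideanSpace ℝ (Fin n) => ⟪gradient g y, y - y0⟫_ℝ :=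
      hg.grad_cont.inner (continuous_id.sub continuous_const)
    have hb : Continuous fun y : EuclideanSpace ℝ (Fin n) => ‖y - y0‖ :=
      (continuous_id.sub continuous_const).norm
    exact (ha.measurable.div hb.measurable).aestronglyMeasurable
  · rw [Real.norm_eq_abs, abs_of_nonneg (sq_nonneg _)]
    exact radial_sq_le _ _

theorem shell_bound (hR : S_Radial) (hC : S_Compet) (n : ℕ) (hn : 0 < n) :
    ∃ C : ℝ, 0 < C ∧ ∀ (Ω : Set (EuclideanSpace ℝ (Fin n)))
      (y0 x : EuclideanSpace ℝ (Fin n)) (lam D l ρ : ℝ)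
      (u : EuclideanSpace ℝ (Fin n) → ℝ)
      (G : EuclideanSpace ℝ (Fin n) → EuclideanSpace ℝ (Fin n)),
      IsOpen Ω → Convex ℝ Ω → y0 ∈ Ω → (∀ y ∈ Ω, ‖y - y0‖ ≤ D) → Rayl Ω lam → 0 ≤ lam →
      0 < l → l ≤ D / 8 → 0 < ρ → IsH10 Ω u G → WeakEq Ω lam u G →
      (∀ y ∈ Ω ∩ ball x ρ, D / 3 ≤ ‖y - y0‖) →
      ∫ y in Ω ∩ ball x ρ, u y ^ 2 ≤
        4 * Real.pi * ρ * √(C / D ^ 2 + 24 * lam * l / D + C / l ^ 2) *
          ∫ y in Ω, u y ^ 2 := by
  obtain ⟨CB, hCB, hcomp⟩ := hC n hn
  obtain ⟨M, hM0, hM⟩ := deriv_st_bdd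
  refine ⟨CB + (42 * M) ^ 2, by positivity, ?_⟩
  intro Ω y0 x lam D l ρ u G hO hcv hy0 hdist hray hlam hl hlD hρ hH hW hfar
  have hD : 0 < D := by linarith
  obtain ⟨φ, hφ, hφu, hφG⟩ := hH.approx
  set η : EuclideanSpace ℝ (Fin n) → ℝ := cut y0 D with hη
  have hηs : ContDiff ℝ ∞ η := cut_smooth y0 D
  have hηd : Differentiable ℝ η := hηs.differentiable (by norm_num)
  have hη0 : ∀ y, 0 ≤ η y := cut_nonneg y0 D
  have hη1 : ∀ y, η y ≤ 1 := cut_le_one y0 D
  set m : ℝ := 42 * M / D with hm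
  have hm0 : 0 ≤ m := by positivity
  have hηg : ∀ y ∈ Ω, ‖gradient η y‖ ≤ m := fun y hy => cut_grad hM y0 hD (hdist y hy)
  set g : ℕ → EuclideanSpace ℝ (Fin n) → ℝ := fun k y => η y * φ k y with hgdef
  set θ : ℕ → EuclideanSpace ℝ (Fin n) → ℝ := fun k y => η y * g k y with hθdef
  have hg : ∀ k, IsTest Ω (g k) := fun k => (hφ k).mul_smooth hηs
  have hθ : ∀ k, IsTest Ω (θ k) := fun k => (hg k).mul_smooth hηs
  have hgg : ∀ k y, gradient (g k) y = η y • gradient (φ k) y + φ k y • gradient η y :=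
    fun k y => grad_mul (hηd y) ((hφ k).diff y)
  have hgθ : ∀ k y, gradient (θ k) y = η y • gradient (g k) y + g k y • gradient η y :=
    fun k y => grad_mul (hηd y) ((hg k).diff y)
  -- points outside Ω
  have hφout : ∀ k y, y ∉ Ω → φ k y = 0 := fun k y hy =>
    image_eq_zero_of_notMem_tsupport fun h => hy ((hφ k).supp h)
  have hGout : ∀ k y, y ∉ Ω → gradient (φ k) y = 0 := fun k y hy =>
    grad_zero_of_notMem fun h => hy ((hφ k).supp h)
  have hsetΩ : ∀ f : EuclideanSpace ℝ (Fin n) → ℝ, (∀ y, y ∉ Ω → f y = 0) →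
      ∫ y in Ω, f y = ∫ y, f y := fun f hf =>
    setIntegral_eq_integral_of_forall_compl_eq_zero fun y hy => hf y hy
  -- sequences
  set A : ℕ → ℝ := fun k => ∫ y, φ k y ^ 2 with hA
  set a : ℕ → ℝ := fun k => ∫ y, g k y ^ 2 with ha
  have hφsq : ∀ k, Integrable (fun y => φ k y ^ 2) := fun k => by
    have := integrable_sq ((hφ k).memLp volume)
    simpa using this
  have hgsq : ∀ k, Integrable (fun y => g k y ^ 2) := fun k => by
    have := integrable_sq ((hg k).memLp volume)
    simpa using this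
  have hgle : ∀ k y, g k y ^ 2 ≤ φ k y ^ 2 := fun k y => by
    have : g k y ^ 2 = η y ^ 2 * φ k y ^ 2 := by simp [hgdef]; ring
    rw [this]
    have h1 : η y ^ 2 ≤ 1 := pow_le_one₀ (hη0 y) (hη1 y)
    nlinarith [sq_nonneg (φ k y)]
  have haA : ∀ k, a k ≤ A k := fun k => integral_mono (hgsq k) (hφsq k) (hgle k)
  have ha0 : ∀ k, 0 ≤ a k := fun k => integral_nonneg fun y => sq_nonneg _
  have hA0 : ∀ k, 0 ≤ A k := fun k => integral_nonneg fun y => sq_nonneg _
  have hφm : ∀ k, MemLp (φ k) 2 (volume.restrict Ω) := fun k => (hφ k).memLp _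
  have hAt : Tendsto A atTop (𝓝 (∫ y in Ω, u y ^ 2)) := by
    have h := int_sq_tendsto hφm hH.memU hφu
    simp only [Real.norm_eq_abs, sq_abs] at h
    refine h.congr fun k => ?_
    exact hsetΩ _ fun y hy => by simp [hφout k y hy]
  have hBt : Tendsto (fun k => ∫ y in Ω, ‖gradient (φ k) y‖ ^ 2) atTop
      (𝓝 (∫ y in Ω, ‖G y‖ ^ 2)) :=
    int_sq_tendsto (fun k => (hφ k).grad_memLp _) hH.memG hφG
  have hδt : Tendsto (fun k => ∫ y in Ω, (φ k y - u y) ^ 2) atTop (𝓝 0) := by
    have h := int_sq_tendsto_zero hφm hH.memU hφu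
    simpa only [Real.norm_eq_abs, sq_abs] using h
  have hδ't : Tendsto (fun k => ∫ y in Ω, ‖gradient (φ k) y - G y‖ ^ 2) atTop (𝓝 0) :=
    int_sq_tendsto_zero (fun k => (hφ k).grad_memLp _) hH.memG hφG
  -- the error term
  set e : ℕ → ℝ := fun k => (∫ y, ⟪gradient (φ k) y, gradient (θ k) y⟫_ℝ) - lam * a k with he
  have het : Tendsto e atTop (𝓝 0) := by
    have hid : ∀ k, e k = (∫ y in Ω, ⟪gradient (φ k) y - G y, gradient (θ k) y⟫_ℝ) -
        lam * ∫ y in Ω, (φ k y - u y) * θ k y := by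
      intro k
      have h1 : ∫ y, ⟪gradient (φ k) y, gradient (θ k) y⟫_ℝ =
          ∫ y in Ω, ⟪gradient (φ k) y, gradient (θ k) y⟫_ℝ :=
        (hsetΩ _ fun y hy => by simp [hGout k y hy]).symm
      have h2 : a k = ∫ y in Ω, φ k y * θ k y := by
        rw [hsetΩ (fun y => φ k y * θ k y) fun y hy => by simp [hφout k y hy]]
        refine integral_congr_ae (Eventually.of_forall fun y => ?_)
        simp only [hθdef, hgdef]; ring
      have h3 : ∫ y in Ω, ⟪gradient (φ k) y - G y, gradient (θ k) y⟫_ℝ =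
          (∫ y in Ω, ⟪gradient (φ k) y, gradient (θ k) y⟫_ℝ) -
            ∫ y in Ω, ⟪G y, gradient (θ k) y⟫_ℝ := by
        rw [← integral_sub (integrable_inner ((hφ k).grad_memLp _) ((hθ k).grad_memLp _))
          (integrable_inner hH.memG ((hθ k).grad_memLp _))]
        congr 1; ext y; rw [inner_sub_left]
      have h4 : ∫ y in Ω, (φ k y - u y) * θ k y =
          (∫ y in Ω, φ k y * θ k y) - ∫ y in Ω, u y * θ k y := by
        have i1 : Integrable (fun y => φ k y * θ k y) (volume.restrict Ω) := by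
          have := integrable_inner ((hθ k).memLp (volume.restrict Ω)) (hφm k)
          simpa only [RCLike.inner_apply, conj_trivial] using this
        have i2 : Integrable (fun y => u y * θ k y) (volume.restrict Ω) := by
          have := integrable_inner ((hθ k).memLp (volume.restrict Ω)) hH.memU
          simpa only [RCLike.inner_apply, conj_trivial] using this
        rw [← integral_sub i1 i2]
        congr 1; ext y; ring
      rw [h3, h4, hW (θ k) (hθ k), ← h2, ← h1, he]
      ring
    have hb1 : ∀ k, |e k| ≤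
        √(∫ y in Ω, ‖gradient (φ k) y - G y‖ ^ 2) *
          √(2 * (∫ y in Ω, ‖gradient (φ k) y‖ ^ 2) + 8 * m ^ 2 * A k) +
        lam * (√(∫ y in Ω, (φ k y - u y) ^ 2) * √(A k)) := by
      intro k
      rw [hid k]
      have c1 := cs (μ := volume.restrict Ω) (((hφ k).grad_memLp _).sub hH.memG)
        ((hθ k).grad_memLp (volume.restrict Ω))
      have c2 := cs_real (μ := volume.restrict Ω) ((hφm k).sub hH.memU)
        ((hθ k).memLp (volume.restrict Ω))
      simp only [Pi.sub_apply] at c1 c2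
      have hθle : ∫ y in Ω, θ k y ^ 2 ≤ A k := by
        rw [hsetΩ _ fun y hy => by simp [hθdef, hgdef, hφout k y hy]]
        have i1 : Integrable (fun y => θ k y ^ 2) := by
          have := integrable_sq ((hθ k).memLp volume)
          simpa using this
        refine integral_mono i1 (hφsq k) fun y => ?_
        refine le_trans ?_ (hgle k y)
        have : θ k y ^ 2 = η y ^ 2 * g k y ^ 2 := by simp [hθdef]; ring
        simp only [this]
        have h1 : η y ^ 2 ≤ 1 := pow_le_one₀ (hη0 y) (hη1 y)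
        nlinarith [sq_nonneg (g k y)]
      have hgθle : ∫ y in Ω, ‖gradient (θ k) y‖ ^ 2 ≤
          2 * (∫ y in Ω, ‖gradient (φ k) y‖ ^ 2) + 8 * m ^ 2 * A k := by
        have hAΩ : A k = ∫ y in Ω, φ k y ^ 2 :=
          (hsetΩ _ fun y hy => by simp [hφout k y hy]).symm
        rw [hAΩ, ← integral_const_mul, ← integral_const_mul, ← integral_add]
        · refine setIntegral_mono_on (integrable_sq ((hθ k).grad_memLp _)) ?_ hO.measurableSet ?_
          · exact ((integrable_sq ((hφ k).grad_memLp _)).const_mul _).add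
              (((hφsq k).integrableOn).const_mul _)
          · intro y hy
            have h1 : gradient (θ k) y =
                (η y ^ 2) • gradient (φ k) y + (2 * η y * φ k y) • gradient η y := by
              rw [hgθ, hgg]
              simp only [hgdef, smul_add, smul_smul]
              module
            have h2 : ‖gradient (θ k) y‖ ≤ ‖gradient (φ k) y‖ + 2 * |φ k y| * m := by
              rw [h1]
              refine (norm_add_le _ _).trans ?_
              rw [norm_smul, norm_smul, Real.norm_eq_abs, Real.norm_eq_abs,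
                abs_of_nonneg (sq_nonneg _), abs_mul, abs_of_nonneg (by
                  have := hη0 y; positivity : (0 : ℝ) ≤ 2 * η y)]
              have h3 : η y ^ 2 ≤ 1 := pow_le_one₀ (hη0 y) (hη1 y)
              have h4 := hηg y hy
              have h5 := hη1 y
              have h6 := hη0 y
              gcongr
              · nlinarith [norm_nonneg (gradient (φ k) y)]
              · nlinarith
            have h3 : 0 ≤ ‖gradient (θ k) y‖ := norm_nonneg _
            have h4 : 0 ≤ |φ k y| := abs_nonneg _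
            calc ‖gradient (θ k) y‖ ^ 2 ≤ (‖gradient (φ k) y‖ + 2 * |φ k y| * m) ^ 2 := by
                  gcongr
              _ ≤ 2 * ‖gradient (φ k) y‖ ^ 2 + 8 * m ^ 2 * φ k y ^ 2 := by
                  have : |φ k y| ^ 2 = φ k y ^ 2 := sq_abs _
                  nlinarith [sq_nonneg (‖gradient (φ k) y‖ - 2 * |φ k y| * m)]
        · exact (integrable_sq ((hφ k).grad_memLp _)).const_mul _
        · exact ((hφsq k).integrableOn).const_mul _
      refine (abs_sub _ _).trans ?_
      rw [abs_mul, abs_of_nonneg hlam]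
      gcongr
      · exact c1.trans (by gcongr)
      · exact c2.trans (by gcongr)
    have hlim : Tendsto (fun k => √(∫ y in Ω, ‖gradient (φ k) y - G y‖ ^ 2) *
          √(2 * (∫ y in Ω, ‖gradient (φ k) y‖ ^ 2) + 8 * m ^ 2 * A k) +
        lam * (√(∫ y in Ω, (φ k y - u y) ^ 2) * √(A k))) atTop (𝓝 0) := by
      have t1 : Tendsto (fun k => √(∫ y in Ω, ‖gradient (φ k) y - G y‖ ^ 2)) atTop (𝓝 0) := by
        have := hδ't.sqrt
        simpa using this
      have t2 : Tendsto (fun k => √(∫ y in Ω, (φ k y - u y) ^ 2)) atTop (𝓝 0) := by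
        have := hδt.sqrt
        simpa using this
      have t3 := ((hBt.const_mul 2).add (hAt.const_mul (8 * m ^ 2))).sqrt
      have t4 := hAt.sqrt
      have := (t1.mul t3).add ((t2.mul t4).const_mul lam)
      simpa using this
    exact squeeze_zero_norm (fun k => by rw [Real.norm_eq_abs]; exact hb1 k) hlim
  -- radial energy
  set K : ℝ := (CB + (42 * M) ^ 2) / D ^ 2 + 24 * lam * l / D + (CB + (42 * M) ^ 2) / l ^ 2
    with hK
  have hEk : ∀ k, ∫ y, (⟪gradient (g k) y, y - y0⟫_ℝ / ‖y - y0‖) ^ 2 ≤ e k + K * A k := by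
    intro k
    set P := ∫ y, (‖gradient (g k) y‖ ^ 2 - (⟪gradient (g k) y, y - y0⟫_ℝ / ‖y - y0‖) ^ 2) with hP
    have hrad := radial_integrable (hg k) y0
    have hfull : Integrable (fun y => ‖gradient (g k) y‖ ^ 2) :=
      integrable_sq ((hg k).grad_memLp volume)
    have hPe : P = (∫ y, ‖gradient (g k) y‖ ^ 2) -
        ∫ y, (⟪gradient (g k) y, y - y0⟫_ℝ / ‖y - y0‖) ^ 2 := integral_sub hfull hrad
    have hP0 : 0 ≤ P := integral_nonneg fun y => sub_nonneg.2 (radial_sq_le _ _)
    have hc := hcomp Ω y0 lam D l hO hcv hy0 hray hlam hl hlD (g k) (hg k) (by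
      intro y hy
      have : ‖y - y0‖ ≤ D / 4 := by rw [← dist_eq_norm]; exact (mem_ball.1 hy).le
      simp [hgdef, hη, cut_zero hD this])
    have hsplit : ∫ y, ‖gradient (g k) y‖ ^ 2 =
        (∫ y, ⟪gradient (φ k) y, gradient (θ k) y⟫_ℝ) +
          ∫ y, φ k y ^ 2 * ‖gradient η y‖ ^ 2 := by
      have hηc : Continuous (gradient η) := by
        have h1 : Continuous (fderiv ℝ η) := hηs.continuous_fderiv (by norm_num)
        exact (InnerProductSpace.toDual ℝ (EuclideanSpace ℝ (Fin n))).symm.continuous.comp h1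
      have i2 : Integrable (fun y => φ k y ^ 2 * ‖gradient η y‖ ^ 2) := by
        refine Continuous.integrable_of_hasCompactSupport ?_ ?_
        · exact ((hφ k).cont.pow 2).mul (hηc.norm.pow 2)
        · have := (hφ k).compact.comp_left (g := fun t : ℝ => t ^ 2) (by norm_num)
          exact this.mul_right
      rw [← integral_add (integrable_inner ((hφ k).grad_memLp volume)
        ((hθ k).grad_memLp volume)) i2]
      congr 1; ext y
      rw [hgθ, hgg]
      simp only [hgdef]
      rw [← real_inner_self_eq_norm_sq, ← real_inner_self_eq_norm_sq]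
      simp only [inner_add_left, inner_add_right, real_inner_smul_left, real_inner_smul_right,
        real_inner_comm (gradient (φ k) y) (gradient η y)]
      ring
    have hη2 : ∫ y, φ k y ^ 2 * ‖gradient η y‖ ^ 2 ≤ m ^ 2 * A k := by
      rw [hA, ← integral_const_mul]
      refine integral_mono_of_nonneg (Eventually.of_forall fun y => by positivity)
        ((hφsq k).const_mul _) (Eventually.of_forall fun y => ?_)
      by_cases hy : y ∈ Ω
      · have := hηg y hy
        have h2 : ‖gradient η y‖ ^ 2 ≤ m ^ 2 := pow_le_pow_left₀ (norm_nonneg _) this 2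
        simp only
        nlinarith [sq_nonneg (φ k y)]
      · simp [hφout k y hy]
    have hPlow : lam * a k - (24 * lam * l / D + CB / l ^ 2) * a k ≤ P := by
      by_contra hcon
      push Not at hcon
      set X := 24 * l / D with hX
      have hX0 : 0 ≤ X := by positivity
      set c := CB / l ^ 2 with hc'
      have hc0 : 0 ≤ c := by positivity
      have hXl : 24 * lam * l / D = X * lam := by rw [hX]; ring
      rw [hXl] at hcon
      have h1 : (1 + X) * P < (1 + X) * (lam * a k - (X * lam + c) * a k) := by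
        apply mul_lt_mul_of_pos_left hcon; positivity
      have h2 : lam * a k ≤ (1 + X) * P + c * a k := hc
      have h3 : 0 ≤ (X ^ 2 * lam + X * c) * a k := by
        have := ha0 k
        positivity
      nlinarith
    have hmD : m ^ 2 = (42 * M) ^ 2 / D ^ 2 := by rw [hm]; ring
    have hb : ∫ y, (⟪gradient (g k) y, y - y0⟫_ℝ / ‖y - y0‖) ^ 2 ≤
        e k + m ^ 2 * A k + (24 * lam * l / D + CB / l ^ 2) * a k := by
      have : ∫ y, ⟪gradient (φ k) y, gradient (θ k) y⟫_ℝ = e k + lam * a k := by rw [he]; ring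
      rw [this] at hsplit
      linarith
    have h5 : (24 * lam * l / D + CB / l ^ 2) * a k ≤ (24 * lam * l / D + CB / l ^ 2) * A k := by
      have := haA k
      gcongr
    have h6 : m ^ 2 + (24 * lam * l / D + CB / l ^ 2) ≤ K := by
      rw [hmD, hK]
      have h7 : (42 * M) ^ 2 / D ^ 2 ≤ (CB + (42 * M) ^ 2) / D ^ 2 := by
        gcongr; linarith
      have h8 : CB / l ^ 2 ≤ (CB + (42 * M) ^ 2) / l ^ 2 := by
        gcongr; nlinarith [sq_nonneg (42 * M)]
      linarith
    have h7 := mul_le_mul_of_nonneg_right h6 (hA0 k)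
    linarith
  -- conclusion
  have hfin : ∀ k, ∫ y in Ω ∩ ball x ρ, φ k y ^ 2 ≤
      4 * Real.pi * ρ * √(A k) * √(e k + K * A k) := by
    intro k
    have h1 : ∫ y in Ω ∩ ball x ρ, φ k y ^ 2 = ∫ y in Ω ∩ ball x ρ, g k y ^ 2 := by
      refine setIntegral_congr_fun (hO.measurableSet.inter isOpen_ball.measurableSet) ?_
      intro y hy
      simp [hgdef, hη, cut_one hD (hfar y hy)]
    have h2 : ∫ y in Ω ∩ ball x ρ, g k y ^ 2 ≤
        ∫ y in {y | |‖y - y0‖ - ‖x - y0‖| < ρ}, g k y ^ 2 := by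
      refine setIntegral_mono_set (hgsq k).integrableOn
        (Eventually.of_forall fun y => sq_nonneg _) ?_
      refine LE.le.eventuallyLE fun y hy => ?_
      have h3 : ‖y - x‖ < ρ := by rw [← dist_eq_norm]; exact hy.2
      have h4 := abs_norm_sub_norm_le (y - y0) (x - y0)
      rw [sub_sub_sub_cancel_right] at h4
      exact lt_of_le_of_lt h4 h3
    have h3 := hR n hn y0 (g k) (D / 4) ‖x - y0‖ ρ (hg k).univ (by positivity) (by
      intro y hy
      have : ‖y - y0‖ ≤ D / 4 := by rw [← dist_eq_norm]; exact (mem_ball.1 hy).le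
      simp [hgdef, hη, cut_zero hD this]) hρ
    rw [h1]
    refine h2.trans (h3.trans ?_)
    have h4 := haA k
    have h5 := hEk k
    have hpi := Real.pi_pos
    gcongr
  have ht : Tendsto (fun k => ∫ y in Ω ∩ ball x ρ, φ k y ^ 2) atTop
      (𝓝 (∫ y in Ω ∩ ball x ρ, u y ^ 2)) := by
    have hsub : volume.restrict (Ω ∩ ball x ρ) ≤ volume.restrict Ω :=
      Measure.restrict_mono inter_subset_left le_rfl
    have h := int_sq_tendsto (μ := volume.restrict (Ω ∩ ball x ρ)) (fun k => (hφ k).memLp _)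
      (hH.memU.mono_measure hsub) (by
        refine tendsto_of_tendsto_of_tendsto_of_le_of_le tendsto_const_nhds hφu
          (fun k => zero_le) (fun k => ?_)
        exact eLpNorm_mono_measure _ hsub)
    simpa only [Real.norm_eq_abs, sq_abs] using h
  have ht2 : Tendsto (fun k => 4 * Real.pi * ρ * √(A k) * √(e k + K * A k)) atTop
      (𝓝 (4 * Real.pi * ρ * √(∫ y in Ω, u y ^ 2) * √(0 + K * ∫ y in Ω, u y ^ 2))) :=
    (hAt.sqrt.const_mul _).mul ((het.add (hAt.const_mul K)).sqrt)
  have hle := le_of_tendsto_of_tendsto' ht ht2 hfin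
  refine hle.trans (le_of_eq ?_)
  have hN : 0 ≤ ∫ y in Ω, u y ^ 2 := integral_nonneg fun y => sq_nonneg _
  have hK0 : 0 ≤ K := by positivity
  rw [zero_add, Real.sqrt_mul hK0]
  have : √(∫ y in Ω, u y ^ 2) * √(∫ y in Ω, u y ^ 2) = ∫ y in Ω, u y ^ 2 :=
    Real.mul_self_sqrt hN
  calc 4 * Real.pi * ρ * √(∫ y in Ω, u y ^ 2) * (√K * √(∫ y in Ω, u y ^ 2))
      = 4 * Real.pi * ρ * √K * (√(∫ y in Ω, u y ^ 2) * √(∫ y in Ω, u y ^ 2)) := by ring
    _ = _ := by rw [this]

end Pool.Agent.W780.SN
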