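import Pool.Agent.W780.SN.Defs

/-!
Statements (as propositions) of the independent parts of the proof.
-/

namespace Pool.Agent.W780.SN

open MeasureTheory Set Filter Topology Metric
open scoped ENNReal InnerProductSpace ContDiff

/-- Euler identity. -/
def S_Euler : Prop := ∀ (n : ℕ) (y0 : EuclideanSpace ℝ (Fin n))
  (F : EuclideanSpace ℝ (Fin n) → ℝ), ContDiff ℝ 1 F → HasCompactSupport F →
  ∫ x, (⟪gradient F x, x - y0⟫_ℝ + n * F x) = 0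

/-- Radial Sobolev inequality on shells. -/
def S_Radial : Prop := ∀ (n : ℕ), 0 < n → ∀ (y0 : EuclideanSpace ℝ (Fin n))
  (g : EuclideanSpace ℝ (Fin n) → ℝ) (δ R ρ : ℝ), IsTest univ g → 0 < δ →
  (∀ x ∈ ball y0 δ, g x = 0) → 0 < ρ →
  ∫ x in {x | |‖x - y0‖ - R| < ρ}, g x ^ 2 ≤
    4 * Real.pi * ρ * Real.sqrt (∫ x, g x ^ 2) *
      Real.sqrt (∫ x, (⟪gradient g x, x - y0⟫_ℝ / ‖x - y0‖) ^ 2)

/-- Polar coordinates. -/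
def S_Polar : Prop := ∀ (n : ℕ), 0 < n → ∀ F : EuclideanSpace ℝ (Fin n) → ℝ, Integrable F →
  IntegrableOn (fun t : ℝ => t ^ (n - 1) * ∫ θ : sphere (0 : EuclideanSpace ℝ (Fin n)) 1,
      F (t • (θ : EuclideanSpace ℝ (Fin n)))
        ∂(volume : Measure (EuclideanSpace ℝ (Fin n))).toSphere) (Ioi 0) ∧
  ∫ x, F x = ∫ t in Ioi (0 : ℝ), t ^ (n - 1) *
    ∫ θ : sphere (0 : EuclideanSpace ℝ (Fin n)) 1, F (t • (θ : EuclideanSpace ℝ (Fin n)))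
      ∂(volume : Measure (EuclideanSpace ℝ (Fin n))).toSphere

/-- The competitor estimate (slices extended radially). -/
def S_Compet : Prop := ∀ (n : ℕ), 0 < n → ∃ C : ℝ, 0 < C ∧
  ∀ (Ω : Set (EuclideanSpace ℝ (Fin n))) (y0 : EuclideanSpace ℝ (Fin n)) (lam D l : ℝ),
  IsOpen Ω → Convex ℝ Ω → y0 ∈ Ω → Rayl Ω lam → 0 ≤ lam → 0 < l → l ≤ D / 8 →
  ∀ φ : EuclideanSpace ℝ (Fin n) → ℝ, IsTest Ω φ → (∀ x ∈ ball y0 (D / 4), φ x = 0) →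
  lam * (∫ x, φ x ^ 2) ≤
    (1 + 24 * l / D) *
      (∫ x, (‖gradient φ x‖ ^ 2 - (⟪gradient φ x, x - y0⟫_ℝ / ‖x - y0‖) ^ 2)) +
    C / l ^ 2 * (∫ x, φ x ^ 2)

/-- Upper bound for the first eigenvalue by the radius of an inscribed ball. -/
def S_LamUpper : Prop := ∀ (n : ℕ), ∃ K : ℝ, 0 < K ∧
  ∀ (Ω : Set (EuclideanSpace ℝ (Fin n))) (lam : ℝ), Rayl Ω lam →
  ∀ (x : EuclideanSpace ℝ (Fin n)) (r : ℝ), 0 < r → ball x r ⊆ Ω → lam ≤ K / r ^ 2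

/-- `|u|` is a weak subsolution on the whole space. -/
def S_Kato : Prop := ∀ (n : ℕ) (Ω : Set (EuclideanSpace ℝ (Fin n))) (lam : ℝ)
  (u : EuclideanSpace ℝ (Fin n) → ℝ)
  (G : EuclideanSpace ℝ (Fin n) → EuclideanSpace ℝ (Fin n)),
  IsOpen Ω → Bornology.IsBounded Ω → 0 ≤ lam → IsH10 Ω u G → WeakEq Ω lam u G →
  ∀ ψ : EuclideanSpace ℝ (Fin n) → ℝ, IsTest univ ψ → (∀ x, 0 ≤ ψ x) →
  -(∫ x in Ω, |u x| * lap ψ x) ≤ lam * ∫ x in Ω, |u x| * ψ x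

/-- Mean value inequality for nonnegative weak subsolutions. -/
def S_Kernel : Prop := ∀ (n : ℕ), 0 < n → ∃ C : ℝ, 0 < C ∧
  ∀ (w : EuclideanSpace ℝ (Fin n) → ℝ) (lam r : ℝ), Integrable w → (∀ x, 0 ≤ w x) →
  0 ≤ lam → 0 < r →
  (∀ ψ : EuclideanSpace ℝ (Fin n) → ℝ, IsTest univ ψ → (∀ x, 0 ≤ ψ x) →
    -(∫ x, w x * lap ψ x) ≤ lam * ∫ x, w x * ψ x) →
  ∀ᵐ x, w x ≤ C * Real.exp (lam * r ^ 2) / r ^ n * ∫ y in ball x r, w y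

/-- Translation estimate. -/
def S_Trans : Prop := ∀ (n : ℕ) (φ : EuclideanSpace ℝ (Fin n) → ℝ), IsTest univ φ →
  ∀ z : EuclideanSpace ℝ (Fin n),
  ∫ x, (φ (x + z) - φ x) ^ 2 ≤ ‖z‖ ^ 2 * ∫ x, ‖gradient φ x‖ ^ 2

/-- Rellich compactness for test functions. -/
def S_Rellich : Prop := ∀ (n : ℕ), 0 < n → ∀ (Ω : Set (EuclideanSpace ℝ (Fin n))),
  Bornology.IsBounded Ω → ∀ (M : ℝ) (φ : ℕ → EuclideanSpace ℝ (Fin n) → ℝ),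
  (∀ k, IsTest Ω (φ k)) → (∀ k, ∫ x, φ k x ^ 2 ≤ M) →
  (∀ k, ∫ x, ‖gradient (φ k) x‖ ^ 2 ≤ M) →
  ∃ σ : ℕ → ℕ, StrictMono σ ∧ ∀ ε > 0, ∃ N, ∀ j ≥ N, ∀ k ≥ N,
    ∫ x, (φ (σ j) x - φ (σ k) x) ^ 2 ≤ ε

/-- The smallest Dirichlet eigenvalue satisfies the Rayleigh inequality (existence of a
minimiser of the Rayleigh quotient). -/
def S_First : Prop := ∀ (n : ℕ), 0 < n → ∀ (Ω : Set (EuclideanSpace ℝ (Fin n))), IsOpen Ω →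
  Bornology.IsBounded Ω → ∀ (lam : ℝ) (u : EuclideanSpace ℝ (Fin n) → ℝ),
  IsEigenfunction Ω lam u →
  (∀ (lam' : ℝ) (v : EuclideanSpace ℝ (Fin n) → ℝ), IsEigenfunction Ω lam' v → lam ≤ lam') →
  Rayl Ω lam

end Pool.Agent.W780.SN
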