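import Pool.Agent.W780.SN.Main
import Pool.Agent.W780.SN.Exist

set_option autoImplicit false

/-!
# The sup-norm of the first Dirichlet eigenfunction on convex domains

For every dimension `n ≥ 1` there is a constant `C = C(n)` with
`ρ^(n/2) ‖u‖_∞ ≤ C (ρ/D)^(1/6) ‖u‖_2` for every bounded convex open `Ω ⊆ ℝ^n` and every first
Dirichlet eigenfunction `u` of `Ω` (van den Berg's conjecture). First eigenfunctions exist.

Idea of the proof: let `y0 ∈ Ω` be far from `x`. Dilations about `y0` map `Ω` into itself; a slice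
of a test function on a sphere about `y0`, extended radially, shows that `lam` exceeds the smallest
tangential Rayleigh quotient by at most `C/ℓ^2`, with `ℓ = ρ^(2/3) D^(1/3)`. Hence the radial
derivative of `u` has energy at most `C ℓ^(-2) ‖u‖_2^2`, so shells of width `ρ` carry at most the
proportion `C ρ/ℓ` of the mass of `u^2`; the mean value inequality for the subsolution `|u|`
concludes.
-/

namespace Pool.Agent.W780.SN.SupNormFirst

open MeasureTheory Metric
open Pool.Agent.W780.SN

theorem result (n : ℕ) (hn : 0 < n) :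
    (∀ Ω : Set (EuclideanSpace ℝ (Fin n)), IsOpen Ω → Bornology.IsBounded Ω → Ω.Nonempty →
      ∃ u, IsFirstEigenfunction Ω u) ∧
    ∃ C : ℝ, 0 < C ∧ ∀ Ω : Set (EuclideanSpace ℝ (Fin n)), IsOpen Ω → Convex ℝ Ω →
      Bornology.IsBounded Ω → Ω.Nonempty → ∀ u, IsFirstEigenfunction Ω u →
      ENNReal.ofReal (inradius Ω ^ ((n : ℝ) / 2)) * eLpNorm u ⊤ (volume.restrict Ω) ≤
        ENNReal.ofReal (C * (inradius Ω / diam Ω) ^ ((1 : ℝ) / 6)) *
          eLpNorm u 2 (volume.restrict Ω) :=
  ⟨fun _ hO hB hne => exists_first hn hO hB hne, supNorm_main n hn⟩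

end Pool.Agent.W780.SN.SupNormFirst
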