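import Pool.Agent.W780.SN.Stm

/-!
Tools: elementary facts about square integrable functions and test functions.
-/

namespace Pool.Agent.W780.SN

open MeasureTheory Set Filter Topology Metric
open scoped ENNReal InnerProductSpace ContDiff

section L2

variable {α : Type*} [MeasurableSpace α] {μ : Measure α} {V : Type*} [NormedAddCommGroup V]

lemma eLpNorm_sq {f : α → V} (hf : MemLp f 2 μ) :
    (eLpNorm f 2 μ).toReal ^ 2 = ∫ x, ‖f x‖ ^ 2 ∂μ := by
  rw [hf.eLpNorm_eq_integral_rpow_norm (by norm_num) (by norm_num)]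
  have h0 : 0 ≤ ∫ x, ‖f x‖ ^ 2 ∂μ := integral_nonneg fun x => by positivity
  have h1 : (∫ a, ‖f a‖ ^ (2 : ℝ≥0∞).toReal ∂μ) = ∫ x, ‖f x‖ ^ 2 ∂μ := by
    congr 1; ext x; simp
  rw [h1, ENNReal.toReal_ofReal (by positivity)]
  rw [← Real.rpow_natCast, ← Real.rpow_mul h0]
  simp

lemma int_sq_tendsto {f : ℕ → α → V} {g : α → V} (hf : ∀ k, MemLp (f k) 2 μ)
    (hg : MemLp g 2 μ)
    (h : Tendsto (fun k => eLpNorm (fun x => f k x - g x) 2 μ) atTop (𝓝 0)) :
    Tendsto (fun k => ∫ x, ‖f k x‖ ^ 2 ∂μ) atTop (𝓝 (∫ x, ‖g x‖ ^ 2 ∂μ)) := by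
  have h1 : Tendsto (fun k => (hf k).toLp (f k)) atTop (𝓝 (hg.toLp g)) := by
    rw [Lp.tendsto_Lp_iff_tendsto_eLpNorm'' f hf g hg]
    exact h
  have h2 := (h1.norm).pow 2
  simp only [Lp.norm_toLp] at h2
  rw [eLpNorm_sq hg] at h2
  refine h2.congr fun k => ?_
  rw [eLpNorm_sq (hf k)]

lemma int_sq_tendsto_zero {f : ℕ → α → V} {g : α → V} (hf : ∀ k, MemLp (f k) 2 μ)
    (hg : MemLp g 2 μ)
    (h : Tendsto (fun k => eLpNorm (fun x => f k x - g x) 2 μ) atTop (𝓝 0)) :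
    Tendsto (fun k => ∫ x, ‖f k x - g x‖ ^ 2 ∂μ) atTop (𝓝 0) := by
  have h1 : Tendsto (fun k => (eLpNorm (fun x => f k x - g x) 2 μ).toReal ^ 2) atTop (𝓝 0) := by
    have := ((ENNReal.tendsto_toReal ENNReal.zero_ne_top).comp h).pow 2
    simpa using this
  refine h1.congr fun k => ?_
  exact eLpNorm_sq ((hf k).sub hg)

variable [InnerProductSpace ℝ V]

lemma integrable_inner {f g : α → V} (hf : MemLp f 2 μ) (hg : MemLp g 2 μ) :
    Integrable (fun x => ⟪f x, g x⟫_ℝ) μ := by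
  have h := L2.integrable_inner (𝕜 := ℝ) (hf.toLp f) (hg.toLp g)
  refine h.congr ?_
  filter_upwards [hf.coeFn_toLp, hg.coeFn_toLp] with x h1 h2
  rw [h1, h2]

lemma integrable_sq {f : α → V} (hf : MemLp f 2 μ) : Integrable (fun x => ‖f x‖ ^ 2) μ := by
  have := integrable_inner hf hf
  simpa only [real_inner_self_eq_norm_sq] using this

lemma cs {f g : α → V} (hf : MemLp f 2 μ) (hg : MemLp g 2 μ) :
    |∫ x, ⟪f x, g x⟫_ℝ ∂μ| ≤ √(∫ x, ‖f x‖ ^ 2 ∂μ) * √(∫ x, ‖g x‖ ^ 2 ∂μ) := by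
  have h := abs_real_inner_le_norm (hf.toLp f) (hg.toLp g)
  rw [L2.inner_def] at h
  have h1 : ∫ x, ⟪(hf.toLp f) x, (hg.toLp g) x⟫_ℝ ∂μ = ∫ x, ⟪f x, g x⟫_ℝ ∂μ := by
    refine integral_congr_ae ?_
    filter_upwards [hf.coeFn_toLp, hg.coeFn_toLp] with x h1 h2
    rw [h1, h2]
  rw [h1, Lp.norm_toLp, Lp.norm_toLp] at h
  rwa [← eLpNorm_sq hf, ← eLpNorm_sq hg, Real.sqrt_sq ENNReal.toReal_nonneg,
    Real.sqrt_sq ENNReal.toReal_nonneg]

lemma cs_real {f g : α → ℝ} (hf : MemLp f 2 μ) (hg : MemLp g 2 μ) :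
    |∫ x, f x * g x ∂μ| ≤ √(∫ x, f x ^ 2 ∂μ) * √(∫ x, g x ^ 2 ∂μ) := by
  have h := cs (μ := μ) hg hf
  simp only [Real.norm_eq_abs, sq_abs] at h
  rw [mul_comm (√(∫ x, f x ^ 2 ∂μ))]
  simpa only [RCLike.inner_apply, conj_trivial] using h

end L2

section test

variable {n : ℕ} {Ω : Set (EuclideanSpace ℝ (Fin n))}

lemma IsTest.univ {φ : EuclideanSpace ℝ (Fin n) → ℝ} (h : IsTest Ω φ) : IsTest Set.univ φ :=
  ⟨h.smooth, h.compact, subset_univ _⟩

lemma IsTest.cont {φ : EuclideanSpace ℝ (Fin n) → ℝ} (h : IsTest Ω φ) : Continuous φ :=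
  h.smooth.continuous

lemma IsTest.diff {φ : EuclideanSpace ℝ (Fin n) → ℝ} (h : IsTest Ω φ) : Differentiable ℝ φ :=
  h.smooth.differentiable (by norm_num)

lemma IsTest.grad_cont {φ : EuclideanSpace ℝ (Fin n) → ℝ} (h : IsTest Ω φ) :
    Continuous (gradient φ) := by
  have h1 : Continuous (fderiv ℝ φ) := h.smooth.continuous_fderiv (by norm_num)
  exact (InnerProductSpace.toDual ℝ (EuclideanSpace ℝ (Fin n))).symm.continuous.comp h1

lemma IsTest.grad_compact {φ : EuclideanSpace ℝ (Fin n) → ℝ} (h : IsTest Ω φ) :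
    HasCompactSupport (gradient φ) := by
  have h1 : HasCompactSupport (fderiv ℝ φ) := h.compact.fderiv ℝ
  have := h1.comp_left (g := (InnerProductSpace.toDual ℝ (EuclideanSpace ℝ (Fin n))).symm)
    (map_zero _)
  exact this

lemma grad_zero_of_notMem {φ : EuclideanSpace ℝ (Fin n) → ℝ} {x : EuclideanSpace ℝ (Fin n)}
    (hx : x ∉ tsupport φ) : gradient φ x = 0 := by
  have h1 : fderiv ℝ φ x = 0 := by
    by_contra hne
    exact hx (support_fderiv_subset ℝ (f := φ) hne)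
  simp [gradient, h1]

lemma IsTest.memLp {φ : EuclideanSpace ℝ (Fin n) → ℝ} (h : IsTest Ω φ)
    (μ : Measure (EuclideanSpace ℝ (Fin n))) [IsFiniteMeasureOnCompacts μ] : MemLp φ 2 μ :=
  h.cont.memLp_of_hasCompactSupport h.compact

lemma IsTest.grad_memLp {φ : EuclideanSpace ℝ (Fin n) → ℝ} (h : IsTest Ω φ)
    (μ : Measure (EuclideanSpace ℝ (Fin n))) [IsFiniteMeasureOnCompacts μ] :
    MemLp (gradient φ) 2 μ :=
  h.grad_cont.memLp_of_hasCompactSupport h.grad_compact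

/-- integrals over `Ω` of functions vanishing off the support. -/
lemma setInt_eq {φ : EuclideanSpace ℝ (Fin n) → ℝ} (h : IsTest Ω φ) {f : EuclideanSpace ℝ (Fin n) → ℝ}
    (hf : ∀ x, x ∉ tsupport φ → f x = 0) : ∫ x in Ω, f x = ∫ x, f x := by
  refine setIntegral_eq_integral_of_forall_compl_eq_zero fun x hx => hf x fun h' => hx (h.supp h')

lemma grad_mul {f g : EuclideanSpace ℝ (Fin n) → ℝ} {x : EuclideanSpace ℝ (Fin n)}
    (hf : DifferentiableAt ℝ f x) (hg : DifferentiableAt ℝ g x) :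
    gradient (fun y => f y * g y) x = f x • gradient g x + g x • gradient f x := by
  have h1 : fderiv ℝ (fun y => f y * g y) x = f x • fderiv ℝ g x + g x • fderiv ℝ f x :=
    fderiv_fun_mul hf hg
  simp [gradient, h1]

lemma IsTest.mul_smooth {φ η : EuclideanSpace ℝ (Fin n) → ℝ} (h : IsTest Ω φ)
    (hη : ContDiff ℝ ∞ η) : IsTest Ω (fun x => η x * φ x) := by
  refine ⟨hη.mul h.smooth, h.compact.mul_left, ?_⟩
  exact (tsupport_mul_subset_right).trans h.supp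

end test

end Pool.Agent.W780.SN
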